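import Pool.Agent.Work.MP_03df5c_all.Exist

open Finset PowerSeries

namespace Pool.Agent.Work.MP_03df5c_all

section algebra

variable {R : Type*} [CommRing R]

lemma cmul_cons (f g : List Bool → R) (d : Bool) (t : List Bool) :
    cmul f g (d :: t) = (∑ i ∈ range (t.length + 1), f (d :: t.take i) * g (t.drop i))
      + f [] * g (d :: t) := by
  unfold cmul
  rw [List.length_cons, sum_range_succ']
  simp

lemma cmul_cons' (f g : List Bool → R) (d : Bool) (t : List Bool) :
    cmul f g (d :: t) = (∑ i ∈ range t.length, f (d :: t.take (i + 1)) * g (t.drop (i + 1)))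
      + f [d] * g t + f [] * g (d :: t) := by
  rw [cmul_cons, sum_range_succ']
  simp

lemma cmul_letter_cons (c : Bool) (g : List Bool → R) (d : Bool) (t : List Bool) :
    cmul (letter R c) g (d :: t) = if d = c then g t else 0 := by
  rw [cmul_cons', letter_nil, zero_mul, add_zero, sum_eq_zero, zero_add]
  · unfold letter
    split_ifs with h1 h2 h2
    · rw [one_mul]
    · simp at h1
      exact absurd h1 h2
    · simp [h2] at h1
    · rw [zero_mul]
  · intro i hi
    rw [mem_range] at hi
    unfold letter
    rw [if_neg, zero_mul]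
    intro h
    have h2 := congrArg List.length h
    simp only [List.length_cons, List.length_take, List.length_nil] at h2
    omega

end algebra

variable {p : ℕ} [hp : Fact p.Prime]

lemma subWord_nil (b : List Bool → ℚ_[p]) (w : List Bool) :
    subWord b [] w = if w = [] then 1 else 0 := rfl

lemma subWord_false (b : List Bool → ℚ_[p]) (u : List Bool) :
    subWord b (false :: u) = cmul (letter _ false) (subWord b u) := rfl

lemma subWord_true (b : List Bool → ℚ_[p]) (u : List Bool) :
    subWord b (true :: u) = cmul b (subWord b u) := rfl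

lemma subWord_short {b : List Bool → ℚ_[p]} (h0 : b [] = 0) :
    ∀ u w : List Bool, w.length < u.length → subWord b u w = 0 := by
  intro u
  induction u with
  | nil =>
    intro w hw
    simp at hw
  | cons c u ih =>
    intro w hw
    cases w with
    | nil =>
      cases c
      · rw [subWord_false, cmul_nil, letter_nil, zero_mul]
      · rw [subWord_true, cmul_nil, h0, zero_mul]
    | cons d t =>
      rw [List.length_cons, List.length_cons] at hw
      cases c
      · rw [subWord_false, cmul_letter_cons]
        split_ifs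
        · exact ih t (by omega)
        · rfl
      · rw [subWord_true, cmul_cons, h0, zero_mul, add_zero]
        refine sum_eq_zero fun i _ => ?_
        rw [ih (t.drop i) (by rw [List.length_drop]; omega), mul_zero]

lemma subWord_eq {b : List Bool → ℚ_[p]} (h0 : b [] = 0) (hA : b [false] = 0)
    (hB : b [true] = 1) :
    ∀ u w : List Bool, w.length = u.length → subWord b u w = if u = w then 1 else 0 := by
  intro u
  induction u with
  | nil =>
    intro w hw
    have : w = [] := List.length_eq_zero_iff.1 (by simpa using hw)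
    subst this
    simp [subWord_nil]
  | cons c u ih =>
    intro w hw
    cases w with
    | nil => simp at hw
    | cons d t =>
      rw [List.length_cons, List.length_cons] at hw
      have hl : t.length = u.length := by omega
      cases c
      · rw [subWord_false, cmul_letter_cons, ih t hl]
        by_cases hd : d = false
        · subst hd
          simp
        · rw [if_neg hd, if_neg]
          intro h
          simp only [List.cons.injEq] at h
          exact hd h.1.symm
      · rw [subWord_true, cmul_cons', h0, zero_mul, add_zero, ih t hl, sum_eq_zero, zero_add]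
        · by_cases hd : d = true
          · subst hd
            rw [hB, one_mul]
            simp
          · have hd' : d = false := by simpa using hd
            subst hd'
            rw [hA, zero_mul, if_neg]
            simp
        · intro i hi
          rw [mem_range] at hi
          rw [subWord_short h0 u _ (by rw [List.length_drop]; omega), mul_zero]

lemma norm_subWord_le {b : List Bool → ℚ_[p]} (h0 : b [] = 0) (hA : b [false] = 0)
    (hB : b [true] = 1) {N : ℕ}
    (hb : ∀ w : List Bool, 2 ≤ w.length → w.length ≤ N → ‖b w‖ ≤ (p : ℝ) ^ (w.length - 2)) :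
    ∀ u w : List Bool, u.length < w.length → w.length ≤ N →
      ‖subWord b u w‖ ≤ (p : ℝ) ^ (w.length - u.length - 1) := by
  have hp1 : (1 : ℝ) ≤ p := by exact_mod_cast hp.out.one_le
  intro u
  induction u with
  | nil =>
    intro w hw hN
    rw [subWord_nil, if_neg, norm_zero]
    · positivity
    · rintro rfl
      simp at hw
  | cons c u ih =>
    intro w hw hN
    cases w with
    | nil => simp at hw
    | cons d t =>
      rw [List.length_cons, List.length_cons] at hw
      rw [List.length_cons] at hN
      have e1 : (d :: t).length - (c :: u).length - 1 = t.length - u.length - 1 := by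
        rw [List.length_cons, List.length_cons]
        omega
      rw [e1]
      have hpos : (0 : ℝ) ≤ (p : ℝ) ^ (t.length - u.length - 1) := by positivity
      cases c
      · rw [subWord_false, cmul_letter_cons]
        split_ifs
        · exact ih t (by omega) (by omega)
        · rw [norm_zero]
          exact hpos
      · rw [subWord_true, cmul_cons', h0, zero_mul, add_zero]
        refine (IsUltrametricDist.norm_add_le_max _ _).trans (max_le ?_ ?_)
        · refine norm_sum_le_of _ _ hpos fun i hi => ?_
          rw [mem_range] at hi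
          rw [norm_mul]
          have hl1 : (d :: t.take (i + 1)).length = i + 2 := by
            rw [List.length_cons, List.length_take]
            omega
          have hb1 : ‖b (d :: t.take (i + 1))‖ ≤ (p : ℝ) ^ i := by
            have := hb (d :: t.take (i + 1)) (by omega) (by omega)
            rw [hl1] at this
            simpa using this
          have hl2 : (t.drop (i + 1)).length = t.length - (i + 1) := List.length_drop
          rcases Nat.lt_trichotomy (t.drop (i + 1)).length u.length with h1 | h1 | h1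
          · rw [subWord_short h0 u _ h1, norm_zero, mul_zero]
            exact hpos
          · have h2 : ‖subWord b u (t.drop (i + 1))‖ ≤ 1 := by
              rw [subWord_eq h0 hA hB u _ h1]
              split_ifs <;> simp
            calc ‖b (d :: t.take (i + 1))‖ * ‖subWord b u (t.drop (i + 1))‖
                ≤ (p : ℝ) ^ i * 1 := mul_le_mul hb1 h2 (norm_nonneg _) (by positivity)
              _ = (p : ℝ) ^ (t.length - u.length - 1) := by
                  rw [mul_one]
                  congr 1
                  omega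
          · have h2 := ih (t.drop (i + 1)) h1 (by omega)
            calc ‖b (d :: t.take (i + 1))‖ * ‖subWord b u (t.drop (i + 1))‖
                ≤ (p : ℝ) ^ i * (p : ℝ) ^ ((t.drop (i + 1)).length - u.length - 1) :=
                  mul_le_mul hb1 h2 (norm_nonneg _) (by positivity)
              _ = (p : ℝ) ^ (i + ((t.drop (i + 1)).length - u.length - 1)) := by rw [pow_add]
              _ ≤ (p : ℝ) ^ (t.length - u.length - 1) := by
                  refine pow_le_pow_right₀ hp1 ?_
                  omega
        · have hb1 : ‖b [d]‖ ≤ 1 := by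
            cases d
            · rw [hA, norm_zero]
              exact zero_le_one
            · rw [hB, norm_one]
          have h2 := ih t (by omega) (by omega)
          rw [norm_mul]
          calc ‖b [d]‖ * ‖subWord b u t‖ ≤ 1 * (p : ℝ) ^ (t.length - u.length - 1) :=
                mul_le_mul hb1 h2 (norm_nonneg _) zero_le_one
            _ = _ := one_mul _

theorem stmt_SW : Stmt_SW := fun _ _ _ h0 hA hB =>
  ⟨subWord_short h0, subWord_eq h0 hA hB, fun _ hb => norm_subWord_le h0 hA hB hb⟩

/-- The part of `subSeries` which involves shorter words. -/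
noncomputable def low (p : ℕ) [Fact p.Prime] (b Ψ : List Bool → ℚ_[p]) (w : List Bool) : ℚ_[p] :=
  ∑ l ∈ range w.length, ∑ u : Fin l → Bool,
    Ψ (List.ofFn u) * ((p : ℚ_[p])⁻¹) ^ l * subWord b (List.ofFn u) w

lemma subSeries_eq {b : List Bool → ℚ_[p]} (h0 : b [] = 0) (hA : b [false] = 0)
    (hB : b [true] = 1) (Ψ : List Bool → ℚ_[p]) (w : List Bool) :
    subSeries p b Ψ w = low p b Ψ w + Ψ w * ((p : ℚ_[p])⁻¹) ^ w.length := by
  unfold subSeries low
  rw [sum_range_succ]
  congr 1
  rw [Finset.sum_eq_single (fun i : Fin w.length => w.get i)]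
  · have h1 : List.ofFn (fun i : Fin w.length => w.get i) = w := List.ofFn_get w
    rw [h1, subWord_eq h0 hA hB w w rfl, if_pos rfl, mul_one]
  · intro u _ hu
    rw [subWord_eq h0 hA hB (List.ofFn u) w (by simp), if_neg, mul_zero]
    intro h
    apply hu
    have h1 : List.ofFn (fun i : Fin w.length => w.get i) = w := List.ofFn_get w
    exact List.ofFn_injective (h.trans h1.symm)
  · intro h
    exact absurd (mem_univ _) h

lemma low_congr {b Ψ Ψ' : List Bool → ℚ_[p]} {w : List Bool}
    (h : ∀ u, u.length < w.length → Ψ u = Ψ' u) : low p b Ψ w = low p b Ψ' w := by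
  unfold low
  refine sum_congr rfl fun l hl => sum_congr rfl fun u _ => ?_
  rw [mem_range] at hl
  rw [h (List.ofFn u) (by simpa using hl)]

lemma subSeries_congr {b Ψ Ψ' : List Bool → ℚ_[p]} {w : List Bool}
    (h : ∀ u, u.length ≤ w.length → Ψ u = Ψ' u) : subSeries p b Ψ w = subSeries p b Ψ' w := by
  unfold subSeries
  refine sum_congr rfl fun l hl => sum_congr rfl fun u _ => ?_
  rw [mem_range] at hl
  rw [h (List.ofFn u) (by simpa using (by omega : l ≤ w.length))]

/-- The part of `Φ Ψ(A/p, b/p)` which involves shorter words of `Ψ`. -/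
noncomputable def rest (p : ℕ) [Fact p.Prime] (Φ b Ψ : List Bool → ℚ_[p]) (w : List Bool) :
    ℚ_[p] :=
  low p b Ψ w + ∑ i ∈ range w.length, Φ (w.take (i + 1)) * subSeries p b Ψ (w.drop (i + 1))

lemma cmul_subSeries {Φ b : List Bool → ℚ_[p]} (hΦ : Φ [] = 1) (h0 : b [] = 0)
    (hA : b [false] = 0) (hB : b [true] = 1) (Ψ : List Bool → ℚ_[p]) (w : List Bool) :
    cmul Φ (subSeries p b Ψ) w = rest p Φ b Ψ w + Ψ w * ((p : ℚ_[p])⁻¹) ^ w.length := by
  unfold cmul rest
  rw [sum_range_succ', List.take_zero, List.drop_zero, hΦ, one_mul, subSeries_eq h0 hA hB]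
  ring

lemma rest_congr {Φ b Ψ Ψ' : List Bool → ℚ_[p]} {w : List Bool}
    (h : ∀ u, u.length < w.length → Ψ u = Ψ' u) : rest p Φ b Ψ w = rest p Φ b Ψ' w := by
  unfold rest
  rw [low_congr h]
  congr 1
  refine sum_congr rfl fun i hi => ?_
  rw [mem_range] at hi
  rw [subSeries_congr fun u hu => h u (by rw [List.length_drop] at hu; omega)]

lemma one_lt_p : (1 : ℝ) < p := by exact_mod_cast hp.out.one_lt

lemma norm_pinv_pow (n : ℕ) : ‖((p : ℚ_[p])⁻¹) ^ n‖ = (p : ℝ) ^ n := by
  rw [norm_pow, norm_inv, norm_p, inv_inv]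

lemma norm_one_sub {n : ℕ} (hn : 1 ≤ n) : ‖1 - ((p : ℚ_[p])⁻¹) ^ n‖ = (p : ℝ) ^ n := by
  have h1 : (1 : ℝ) < (p : ℝ) ^ n := one_lt_pow₀ one_lt_p (by omega)
  have h2 : ‖(1 : ℚ_[p])‖ ≠ ‖-((p : ℚ_[p])⁻¹) ^ n‖ := by
    rw [norm_neg, norm_pinv_pow, norm_one]
    exact h1.ne
  rw [sub_eq_add_neg, Padic.add_eq_max_of_ne h2, norm_neg, norm_pinv_pow, norm_one]
  exact max_eq_right h1.le

lemma one_sub_ne {n : ℕ} (hn : 1 ≤ n) : 1 - ((p : ℚ_[p])⁻¹) ^ n ≠ 0 := by
  intro h
  have h1 := norm_one_sub (p := p) hn
  rw [h, norm_zero] at h1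
  have h2 : (0 : ℝ) < (p : ℝ) ^ n := pow_pos (by linarith [one_lt_p (p := p)]) n
  linarith

/-- A local operator has exactly one fixed point. -/
lemma existsUnique_fix {K : Type*} [Zero K] (Θ : (List Bool → K) → List Bool → K)
    (h : ∀ Ψ Ψ' w, (∀ u, u.length < w.length → Ψ u = Ψ' u) → Θ Ψ w = Θ Ψ' w) :
    ∃! Ψ, Θ Ψ = Ψ := by
  have hst : ∀ n m w, w.length < n → n ≤ m → (Θ^[m] 0) w = (Θ^[n] 0) w := by
    intro n
    induction n with
    | zero =>
      intro m w hw
      omega
    | succ n ih =>
      intro m w hw hm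
      obtain ⟨k, rfl⟩ : ∃ k, m = k + 1 := ⟨m - 1, by omega⟩
      rw [Function.iterate_succ_apply', Function.iterate_succ_apply']
      exact h _ _ w fun u hu => ih k u (by omega) (by omega)
  refine ⟨fun w => (Θ^[w.length + 1] 0) w, ?_, ?_⟩
  · funext w
    show Θ (fun w => (Θ^[w.length + 1] 0) w) w = (Θ^[w.length + 1] 0) w
    rw [Function.iterate_succ_apply']
    exact h _ _ w fun u hu => (hst (u.length + 1) w.length u (by omega) (by omega)).symm
  · intro Ψ hΨ
    have key : ∀ n w, w.length < n → Ψ w = (Θ^[w.length + 1] 0) w := by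
      intro n
      induction n with
      | zero =>
        intro w hw
        omega
      | succ n ih =>
        intro w hw
        rw [Function.iterate_succ_apply', ← congrFun hΨ w]
        refine h _ _ w fun u hu => ?_
        rw [ih u (by omega)]
        exact (hst (u.length + 1) w.length u (by omega) (by omega)).symm
    funext w
    exact key (w.length + 1) w (by omega)

theorem stmt_EXA : Stmt_EXA := by
  intro p hp Φ b hΦ h0 hA hB
  obtain ⟨Ψ, hΨ, huniq⟩ := existsUnique_fix
    (fun (Ψ : List Bool → ℚ_[p]) w => if w = [] then 1 else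
      rest p Φ b Ψ w / (1 - ((p : ℚ_[p])⁻¹) ^ w.length)) (by
      intro Ψ Ψ' w h
      beta_reduce
      rw [rest_congr h])
  have hlen : ∀ w : List Bool, w ≠ [] → 1 ≤ w.length := fun w hw => by
    have := List.length_pos_iff.2 hw
    omega
  refine ⟨Ψ, ⟨?_, ?_⟩, ?_⟩
  · rw [← congrFun hΨ []]
    simp
  · funext w
    rw [cmul_subSeries hΦ h0 hA hB]
    by_cases hw : w = []
    · subst hw
      have h1 : Ψ [] = 1 := by
        rw [← congrFun hΨ []]
        simp
      simp [rest, low, h1]
    · have h1 : Ψ w = rest p Φ b Ψ w / (1 - ((p : ℚ_[p])⁻¹) ^ w.length) := by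
        have := congrFun hΨ w
        simp only [if_neg hw] at this
        exact this.symm
      have h2 := one_sub_ne (p := p) (hlen w hw)
      rw [eq_div_iff h2] at h1
      linear_combination h1
  · rintro Ψ' ⟨h1, h2⟩
    apply huniq
    funext w
    by_cases hw : w = []
    · subst hw
      simp [h1]
    · simp only [if_neg hw]
      have h3 := congrFun h2 w
      rw [cmul_subSeries hΦ h0 hA hB] at h3
      rw [div_eq_iff (one_sub_ne (hlen w hw))]
      linear_combination (-1 : ℚ_[p]) * h3

theorem stmt_SM : Stmt_SM := by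
  intro p hp Φ b Ψ N hΦ h0 hA hB hΨ0 hΨ hΦN hbN
  have hp1 : (1 : ℝ) ≤ p := one_lt_p.le
  have hp0 : (0 : ℝ) < p := by linarith
  have key : ∀ n : ℕ, ∀ w : List Bool, w.length ≤ n → 1 ≤ w.length → w.length ≤ N →
      ‖Ψ w‖ ≤ (p : ℝ)⁻¹ := by
    intro n
    induction n with
    | zero =>
      intro w h1 h2
      omega
    | succ n ih =>
      intro w hwn hw1 hwN
      have hlow : ∀ v : List Bool, 1 ≤ v.length → v.length ≤ w.length →
          ‖low p b Ψ v‖ ≤ (p : ℝ) ^ (v.length - 1) := by
        intro v hv1 hvw
        have hpos : (0 : ℝ) ≤ (p : ℝ) ^ (v.length - 1) := by positivity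
        unfold low
        refine norm_sum_le_of _ _ hpos fun l hl => norm_sum_le_of _ _ hpos fun u _ => ?_
        rw [mem_range] at hl
        have hlu : (List.ofFn u).length = l := List.length_ofFn
        rcases Nat.eq_zero_or_pos l with hl0 | hl0
        · have hu0 : List.ofFn u = [] := List.length_eq_zero_iff.1 (by omega)
          rw [hu0, subWord_nil, if_neg, mul_zero, norm_zero]
          · exact hpos
          · rintro rfl
            simp at hv1
        · have h1 : ‖Ψ (List.ofFn u)‖ ≤ (p : ℝ)⁻¹ := ih _ (by omega) (by omega) (by omega)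
          have h2 := norm_subWord_le h0 hA hB hbN (List.ofFn u) v (by omega) (by omega)
          rw [norm_mul, norm_mul, norm_pinv_pow]
          rw [hlu] at h2
          calc ‖Ψ (List.ofFn u)‖ * (p : ℝ) ^ l * ‖subWord b (List.ofFn u) v‖
              ≤ (p : ℝ)⁻¹ * (p : ℝ) ^ l * (p : ℝ) ^ (v.length - l - 1) := by gcongr
            _ ≤ 1 * (p : ℝ) ^ l * (p : ℝ) ^ (v.length - l - 1) := by
                gcongr
                exact inv_le_one_of_one_le₀ hp1
            _ = (p : ℝ) ^ (v.length - 1) := by
                rw [one_mul, ← pow_add]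
                congr 1
                omega
      have hsub : ∀ v : List Bool, 1 ≤ v.length → v.length < w.length →
          ‖subSeries p b Ψ v‖ ≤ (p : ℝ) ^ (v.length - 1) := by
        intro v hv1 hvw
        rw [subSeries_eq h0 hA hB]
        refine (IsUltrametricDist.norm_add_le_max _ _).trans (max_le (hlow v hv1 hvw.le) ?_)
        rw [norm_mul, norm_pinv_pow]
        have h1 : ‖Ψ v‖ ≤ (p : ℝ)⁻¹ := ih v (by omega) hv1 (by omega)
        calc ‖Ψ v‖ * (p : ℝ) ^ v.length ≤ (p : ℝ)⁻¹ * (p : ℝ) ^ v.length := by gcongr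
          _ = (p : ℝ) ^ (v.length - 1) := by
              have : v.length = (v.length - 1) + 1 := by omega
              rw [this, pow_succ]
              field_simp
              simp
      have hrest : ‖rest p Φ b Ψ w‖ ≤ (p : ℝ) ^ (w.length - 1) := by
        have hpos : (0 : ℝ) ≤ (p : ℝ) ^ (w.length - 1) := by positivity
        unfold rest
        refine (IsUltrametricDist.norm_add_le_max _ _).trans (max_le (hlow w hw1 le_rfl) ?_)
        refine norm_sum_le_of _ _ hpos fun i hi => ?_
        rw [mem_range] at hi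
        have hl1 : (w.take (i + 1)).length = i + 1 := by
          rw [List.length_take]
          omega
        have hl2 : (w.drop (i + 1)).length = w.length - (i + 1) := List.length_drop
        have h1 := hΦN (w.take (i + 1)) (by omega) (by omega)
        rw [hl1, Nat.add_sub_cancel] at h1
        rw [norm_mul]
        rcases Nat.eq_zero_or_pos (w.drop (i + 1)).length with h2 | h2
        · have h3 : w.drop (i + 1) = [] := List.length_eq_zero_iff.1 h2
          have h4 : subSeries p b Ψ [] = 1 := by
            rw [subSeries_eq h0 hA hB]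
            simp [low, hΨ0]
          rw [h3, h4, norm_one, mul_one]
          refine h1.trans (pow_le_pow_right₀ hp1 ?_)
          omega
        · have h3 := hsub (w.drop (i + 1)) h2 (by omega)
          calc ‖Φ (w.take (i + 1))‖ * ‖subSeries p b Ψ (w.drop (i + 1))‖
              ≤ (p : ℝ) ^ i * (p : ℝ) ^ ((w.drop (i + 1)).length - 1) :=
                mul_le_mul h1 h3 (norm_nonneg _) (by positivity)
            _ = (p : ℝ) ^ (i + ((w.drop (i + 1)).length - 1)) := by rw [pow_add]
            _ ≤ (p : ℝ) ^ (w.length - 1) := pow_le_pow_right₀ hp1 (by omega)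
      have h1 : Ψ w * (1 - ((p : ℚ_[p])⁻¹) ^ w.length) = rest p Φ b Ψ w := by
        have h2 := congrFun hΨ w
        rw [cmul_subSeries hΦ h0 hA hB] at h2
        linear_combination h2
      have h3 : ‖Ψ w‖ * (p : ℝ) ^ w.length ≤ (p : ℝ) ^ (w.length - 1) := by
        rw [← norm_one_sub (p := p) hw1, ← norm_mul, h1]
        exact hrest
      have h4 : (p : ℝ) ^ w.length = (p : ℝ) ^ (w.length - 1) * p := by
        rw [← pow_succ]
        congr 1
        omega
      rw [h4] at h3
      have h5 : (0 : ℝ) < (p : ℝ) ^ (w.length - 1) := by positivity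
      rw [← one_div, le_div_iff₀ hp0]
      nlinarith [norm_nonneg (Ψ w)]
  intro w h1 h2
  exact key w.length w le_rfl h1 h2

theorem stmt_PAR : Stmt_PAR := by
  intro N
  refine ⟨N * (N + 1) + 2, fun p hp => ?_⟩
  have hp2 : 2 ≤ p := by omega
  have hp1 : (1 : ℝ) < p := by exact_mod_cast (show 1 < p by omega)
  have hp0 : (0 : ℝ) ≤ p := by linarith
  set M : ℕ := p * (N + 1) * (p ^ 2 - 1) with hM
  have hq : 1 ≤ p ^ 2 - 1 := by
    have : 2 ^ 2 ≤ p ^ 2 := Nat.pow_le_pow_left hp2 2
    omega
  have hM0 : M ≠ 0 := by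
    have h1 : 0 < p * (N + 1) * (p ^ 2 - 1) := by positivity
    omega
  set θ : ℝ := (p : ℝ) ^ ((M : ℝ)⁻¹) with hθ
  have hθ1 : 1 < θ := Real.one_lt_rpow hp1 (by positivity)
  have hθM : θ ^ M = p := by
    rw [hθ, ← Real.rpow_natCast, ← Real.rpow_mul hp0, inv_mul_cancel₀ (by exact_mod_cast hM0),
      Real.rpow_one]
  refine ⟨θ ^ (p ^ 2 - 1), θ ^ (p * (N + 1)), one_lt_pow₀ hθ1 (by positivity), ?_, ?_, ?_⟩
  · rw [← pow_mul, ← hM, hθM]
  · rw [← pow_mul]
    refine pow_le_pow_right₀ hθ1.le ?_
    have h1 : p * (N * (N + 1) + 2) ≤ p * p := Nat.mul_le_mul_left _ hp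
    have h2 : p * (N + 1) * N + 1 ≤ p ^ 2 := by nlinarith
    omega
  · rw [← pow_mul, show (p ^ 2 - 1) * (p * (N + 1)) = M by rw [hM]; ring, hθM]

theorem small_of_est (hEST : Stmt_EST) : Stmt_SMALL := by
  intro N
  obtain ⟨p₀, h⟩ := stmt_PAR (max N 1)
  refine ⟨max p₀ 3, fun p hp hpp Ψ hΨ w h1 h2 => ?_⟩
  obtain ⟨ρ, τ, hpar⟩ := h p ((le_max_left _ _).trans hpp)
  obtain ⟨G, b, hF, hΨ0, hΨ1⟩ := hΨ
  obtain ⟨hb0, hbA, hbB⟩ := stmt_BLET p G b hF
  have hE := hEST p (max N 1) ρ τ G b ((le_max_right _ _).trans hpp) (le_max_right _ _) hpar hF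
  refine stmt_SM p (fun w => valueOne (G w)) b Ψ (max N 1) (by simp only [hF.nil, valueOne_one])
    hb0 hbA hbB hΨ0 hΨ1 (fun w h1 h2 => (hE w h1 h2).2.1)
    (fun w h1 h2 => (hE w (by omega) h2).2.2 h1) w h1 (h2.trans (le_max_left _ _))

theorem stmt_UNA : Stmt_UNA := by
  intro p hp
  obtain ⟨G, b, hF⟩ := stmt_EXF p
  obtain ⟨hb0, hbA, hbB⟩ := stmt_BLET p G b hF
  obtain ⟨Ψ, ⟨h1, h2⟩, huniq⟩ := stmt_EXA p (fun w => valueOne (G w)) b
    (by simp only [hF.nil, valueOne_one]) hb0 hbA hbB
  refine ⟨Ψ, ⟨G, b, hF, h1, h2⟩, ?_⟩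
  rintro Ψ' ⟨G', b', hF', h1', h2'⟩
  obtain ⟨rfl, rfl⟩ := stmt_UNF p G G' b b' hF hF'
  exact huniq Ψ' ⟨h1', h2'⟩

end Pool.Agent.Work.MP_03df5c_all
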