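import Pool.Agent.Work.MP_03df5c_all.Defs

/-!
# Interface of the blocks (see BLUEPRINT.md)
-/

open Finset PowerSeries Pool.Agent.Work.MP_03df5c_h91

namespace Pool.Agent.Work.MP_03df5c_all

/-- OCA: closure properties. -/
def Stmt_OCA : Prop := ∀ (p : ℕ) [Fact p.Prime],
  (∀ a : ℚ_[p], Overconvergent (C a)) ∧ Overconvergent (X : PowerSeries ℚ_[p]) ∧
  (∀ f g : PowerSeries ℚ_[p], Overconvergent f → Overconvergent g →
    Overconvergent (f + g) ∧ Overconvergent (f * g) ∧ Overconvergent (-f) ∧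
    Summable (fun n => coeff n f) ∧
    valueOne (f + g) = valueOne f + valueOne g ∧ valueOne (f * g) = valueOne f * valueOne g ∧
    valueOne (-f) = -valueOne f) ∧
  (∀ a : ℚ_[p], valueOne (C a) = a) ∧ valueOne (X : PowerSeries ℚ_[p]) = 1

/-- OCI: integration. -/
def Stmt_OCI : Prop := ∀ (p : ℕ) [Fact p.Prime] (f : PowerSeries ℚ_[p]), Overconvergent f →
  ∃ g : PowerSeries ℚ_[p], Overconvergent g ∧ constantCoeff g = 0 ∧ d⁄dX ℚ_[p] g = f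

/-- OCD: division by `z (1 - z)`. -/
def Stmt_OCD : Prop := ∀ (p : ℕ) [Fact p.Prime] (f : PowerSeries ℚ_[p]), Overconvergent f →
  constantCoeff f = 0 → valueOne f = 0 →
  ∃ g : PowerSeries ℚ_[p], Overconvergent g ∧ X * (1 - X) * g = f

/-- OCDB: the same with bounds. -/
def Stmt_OCDB : Prop := ∀ (p : ℕ) [Fact p.Prime] (f g : PowerSeries ℚ_[p]) (r C : ℝ), 1 < r →
  (∀ n, ‖coeff n f‖ * r ^ n ≤ C) → valueOne f = 0 → X * (1 - X) * g = f →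
  ∀ n, ‖coeff n g‖ * r ^ (n + 2) ≤ C

/-- INTB: integration with bounds. -/
def Stmt_INTB : Prop := ∀ (p : ℕ) [Fact p.Prime] (f g : PowerSeries ℚ_[p]) (r t C : ℝ), 1 < t →
  t ≤ r → (p : ℝ) ≤ t ^ (p ^ 2 - 1) →
  (∀ n, ‖coeff n f‖ * r ^ n ≤ C) → constantCoeff g = 0 → d⁄dX ℚ_[p] g = f →
  ∀ n, ‖coeff n g‖ * (r / t) ^ n ≤ p * r * C

/-- DEL: the logarithmic derivative of `D`. -/
def Stmt_DEL : Prop := ∀ (p : ℕ) [Fact p.Prime], Overconvergent (frobD p) ∧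
  ∃ δ : PowerSeries ℚ_[p], Overconvergent δ ∧
    (p : PowerSeries ℚ_[p]) * frobD p * δ = d⁄dX ℚ_[p] (frobD p)

/-- DELB: the same with bounds. -/
def Stmt_DELB : Prop := ∀ (p : ℕ) [Fact p.Prime] (r : ℝ), 3 ≤ p → 1 ≤ r → r ^ p ≤ p →
  ∃ δ : PowerSeries ℚ_[p],
    (p : PowerSeries ℚ_[p]) * frobD p * δ = d⁄dX ℚ_[p] (frobD p) ∧
    ∀ n, ‖coeff n δ‖ * r ^ n ≤ r ^ (p - 2)

/-- LOG: the logarithm of `D`. -/
def Stmt_LOG : Prop := ∀ (p : ℕ) [Fact p.Prime] (r : ℝ), 3 ≤ p → 1 ≤ r → r ^ (2 * p) ≤ p →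
  ∃ L : PowerSeries ℚ_[p], constantCoeff L = 0 ∧
    (p : PowerSeries ℚ_[p]) * frobD p * d⁄dX ℚ_[p] L = d⁄dX ℚ_[p] (frobD p) ∧
    ∀ n, ‖coeff n L‖ * r ^ n ≤ r ^ p

/-- EXF: existence of the Frobenius matrix. -/
def Stmt_EXF : Prop := ∀ (p : ℕ) [Fact p.Prime],
  ∃ (G : List Bool → PowerSeries ℚ_[p]) (b : List Bool → ℚ_[p]), IsFrobenius p G b

/-- UNF: uniqueness of the Frobenius matrix. -/
def Stmt_UNF : Prop := ∀ (p : ℕ) [Fact p.Prime] (G G' : List Bool → PowerSeries ℚ_[p])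
  (b b' : List Bool → ℚ_[p]), IsFrobenius p G b → IsFrobenius p G' b' → G = G' ∧ b = b'

/-- BLET: the coefficients of `b` in degrees `0` and `1`. -/
def Stmt_BLET : Prop := ∀ (p : ℕ) [Fact p.Prime] (G : List Bool → PowerSeries ℚ_[p])
  (b : List Bool → ℚ_[p]), IsFrobenius p G b → b [] = 0 ∧ b [false] = 0 ∧ b [true] = 1

/-- SW: the substitution in low degrees. -/
def Stmt_SW : Prop := ∀ (p : ℕ) [Fact p.Prime] (b : List Bool → ℚ_[p]), b [] = 0 →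
  b [false] = 0 → b [true] = 1 →
  (∀ u w : List Bool, w.length < u.length → subWord b u w = 0) ∧
  (∀ u w : List Bool, w.length = u.length → subWord b u w = if u = w then 1 else 0) ∧
  (∀ N : ℕ, (∀ w : List Bool, 2 ≤ w.length → w.length ≤ N → ‖b w‖ ≤ (p : ℝ) ^ (w.length - 2)) →
    ∀ u w : List Bool, u.length < w.length → w.length ≤ N →
      ‖subWord b u w‖ ≤ (p : ℝ) ^ (w.length - u.length - 1))

/-- EXA: existence and uniqueness of the solution of `Ψ = Φ Ψ(A/p, b/p)`. -/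
def Stmt_EXA : Prop := ∀ (p : ℕ) [Fact p.Prime] (Φ b : List Bool → ℚ_[p]), Φ [] = 1 → b [] = 0 →
  b [false] = 0 → b [true] = 1 →
  ∃! Ψ : List Bool → ℚ_[p], Ψ [] = 1 ∧ Ψ = cmul Φ (subSeries p b Ψ)

/-- SM: smallness of `Ψ`. -/
def Stmt_SM : Prop := ∀ (p : ℕ) [Fact p.Prime] (Φ b Ψ : List Bool → ℚ_[p]) (N : ℕ), Φ [] = 1 →
  b [] = 0 → b [false] = 0 → b [true] = 1 → Ψ [] = 1 → Ψ = cmul Φ (subSeries p b Ψ) →
  (∀ w : List Bool, 1 ≤ w.length → w.length ≤ N → ‖Φ w‖ ≤ (p : ℝ) ^ (w.length - 1)) →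
  (∀ w : List Bool, 2 ≤ w.length → w.length ≤ N → ‖b w‖ ≤ (p : ℝ) ^ (w.length - 2)) →
  ∀ w : List Bool, 1 ≤ w.length → w.length ≤ N → ‖Ψ w‖ ≤ (p : ℝ)⁻¹

/-- The parameters of the growth estimate. -/
def Params (p N : ℕ) (ρ τ : ℝ) : Prop :=
  1 < τ ∧ (p : ℝ) ≤ τ ^ (p ^ 2 - 1) ∧ τ ^ N ≤ ρ ∧ ρ ^ (p * (N + 1)) ≤ p

/-- PAR: existence of the parameters. -/
def Stmt_PAR : Prop := ∀ N : ℕ, ∃ p₀ : ℕ, ∀ p : ℕ, p₀ ≤ p → ∃ ρ τ : ℝ, Params p N ρ τ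

/-- EST: the growth estimate. -/
def Stmt_EST : Prop := ∀ (p : ℕ) [Fact p.Prime] (N : ℕ) (ρ τ : ℝ) (G : List Bool → PowerSeries ℚ_[p])
  (b : List Bool → ℚ_[p]), 3 ≤ p → 1 ≤ N → Params p N ρ τ → IsFrobenius p G b →
  ∀ w : List Bool, 1 ≤ w.length → w.length ≤ N →
    (∀ n, ‖coeff n (G w)‖ * (ρ / τ ^ w.length) ^ n
      ≤ (p : ℝ) ^ (w.length - 1) * ρ ^ (p * w.length)) ∧
    ‖valueOne (G w)‖ ≤ (p : ℝ) ^ (w.length - 1) ∧
    (2 ≤ w.length → ‖b w‖ ≤ (p : ℝ) ^ (w.length - 2))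

/-- SMALL: the `p`-adic multiple zeta values are small for large `p`. -/
def Stmt_SMALL : Prop := ∀ N : ℕ, ∃ p₀ : ℕ, ∀ (p : ℕ) [Fact p.Prime], p₀ ≤ p →
  ∀ Ψ : List Bool → ℚ_[p], IsAssociator p Ψ →
    ∀ w : List Bool, 1 ≤ w.length → w.length ≤ N → ‖Ψ w‖ ≤ (p : ℝ)⁻¹

/-- UNA: there is exactly one associator. -/
def Stmt_UNA : Prop := ∀ (p : ℕ) [Fact p.Prime], ∃! Ψ : List Bool → ℚ_[p], IsAssociator p Ψ

/-- MZ: real multiple zeta values are positive. -/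
def Stmt_MZ : Prop := ∀ s : MZVIndex, 0 < mzv s

/-- TR: the transfer argument. -/
def Stmt_TR : Prop := ∀ (m : ℕ) (x : Fin m → ℝ) (z : (p : ℕ) → [Fact p.Prime] → Fin m → ℚ_[p]),
  {p : ℕ | ∃ _ : Fact p.Prime, (∀ i, ‖z p i‖ ≤ (p : ℝ)⁻¹) ∧
    ∀ f : MvPolynomial (Fin m) ℚ, MvPolynomial.aeval x f = 0 →
      MvPolynomial.aeval (z p) f = 0}.Infinite →
  ∀ F : MvPolynomial (Fin m) ℂ, (∀ d, IsAlgebraic ℚ (F.coeff d)) →
    MvPolynomial.eval (fun i => (x i : ℂ)) F = 0 → F.coeff 0 = 0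

end Pool.Agent.Work.MP_03df5c_all
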