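import Mathlib
import Pool.Agent.Work.MP_03df5c_h91.MZV

/-!
# Furusho's p-adic multiple zeta values in all depths

Words in two letters are lists of booleans, `false` is the letter `A`, `true` is the letter `B`.
A noncommutative series over `R` is a function `List Bool → R`.

The `p`-adic KZ equation is `G' = (A/z + B/(z-1)) G`. We use the lift of Frobenius
`F(z) = z^p / (z^p + (1-z)^p)`, which satisfies `1 - F(z) = (1-z)^p / (z^p + (1-z)^p)`. The Frobenius
matrix `G` is the overconvergent solution on the closed unit disc of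
`G' = (A/z + B/(z-1)) G - G (F'/(p F) A + F'/(p (F-1)) b)`, `G(0) = 1`,
where `b = Φ⁻¹ B Φ` and `Φ = G(1)` is the `p`-adic associator of Deligne. The associator `Ψ` of
Furusho is determined by `Ψ(A,B) = Φ(A,B) Ψ(A/p, b/p)`, and its coefficients are the `p`-adic
multiple zeta values (Furusho, p-adic multiple zeta values II, Theorem 2.8).
-/

open Finset PowerSeries

namespace Pool.Agent.Work.MP_03df5c_all

/-- The product of two noncommutative series: the coefficient of `w` is `∑ f(u) g(v)` over all
factorisations `w = u v`. -/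
def cmul {R : Type*} [CommRing R] (f g : List Bool → R) (w : List Bool) : R :=
  ∑ i ∈ range (w.length + 1), f (w.take i) * g (w.drop i)

/-- The series consisting of the single letter `c`. -/
def letter (R : Type*) [CommRing R] (c : Bool) (w : List Bool) : R := if w = [c] then 1 else 0

variable (p : ℕ) [Fact p.Prime]

/-- The denominator `D(z) = z^p + (1-z)^p` of the lift of Frobenius `F(z) = z^p / D(z)`. -/
noncomputable def frobD : PowerSeries ℚ_[p] := X ^ p + (1 - X) ^ p

/-- A power series which converges on a disc `|z| ≤ r` with `r > 1`. -/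
def Overconvergent {p : ℕ} [Fact p.Prime] (f : PowerSeries ℚ_[p]) : Prop :=
  ∃ r : ℝ, 1 < r ∧ ∃ C : ℝ, ∀ n, ‖coeff n f‖ * r ^ n ≤ C

/-- The value of an overconvergent power series at `z = 1`. -/
noncomputable def valueOne {p : ℕ} [Fact p.Prime] (f : PowerSeries ℚ_[p]) : ℚ_[p] :=
  ∑' n, coeff n f

/-- `G` is the Frobenius matrix of the KZ equation on the closed unit disc for the lift of
Frobenius `F = z^p / D`, and `b = Φ⁻¹ B Φ` with `Φ = G(1)`. The field `ode` is the equation
`G' = (A/z + B/(z-1)) G - G ((1/z - D'/(pD)) A + (1/(z-1) - D'/(pD)) b)`, multiplied by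
`p z (1-z) D`. -/
structure IsFrobenius (G : List Bool → PowerSeries ℚ_[p]) (b : List Bool → ℚ_[p]) : Prop where
  nil : G [] = 1
  zero : ∀ w, w ≠ [] → constantCoeff (G w) = 0
  oc : ∀ w, Overconvergent (G w)
  conj : cmul (letter _ true) (fun w => valueOne (G w)) = cmul (fun w => valueOne (G w)) b
  ode : ∀ w, (p : PowerSeries ℚ_[p]) * X * (1 - X) * frobD p * d⁄dX ℚ_[p] (G w)
    = (p : PowerSeries ℚ_[p]) * frobD p *
        ((1 - X) * (cmul (letter _ false) G w - cmul G (letter _ false) w)
          - X * (cmul (letter _ true) G w - cmul G (fun v => C (b v)) w))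
      + X * (1 - X) * d⁄dX ℚ_[p] (frobD p) *
        (cmul G (letter _ false) w + cmul G (fun v => C (b v)) w)

/-- The series obtained from the word `u` by the substitution `A ↦ A`, `B ↦ b`. -/
noncomputable def subWord {p : ℕ} [Fact p.Prime] (b : List Bool → ℚ_[p]) :
    List Bool → List Bool → ℚ_[p]
  | [] => fun w => if w = [] then 1 else 0
  | false :: u => cmul (letter _ false) (subWord b u)
  | true :: u => cmul b (subWord b u)

/-- The series `Ψ(A/p, b/p) = ∑_u Ψ(u) p^(-|u|) u(A,b)`. -/
noncomputable def subSeries (b Ψ : List Bool → ℚ_[p]) (w : List Bool) : ℚ_[p] :=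
  ∑ l ∈ range (w.length + 1), ∑ u : Fin l → Bool,
    Ψ (List.ofFn u) * ((p : ℚ_[p])⁻¹) ^ l * subWord b (List.ofFn u) w

/-- `Ψ` is Furusho's `p`-adic associator `Φ_KZ^p`: `Ψ(∅) = 1` and `Ψ(A,B) = Φ(A,B) Ψ(A/p, b/p)`,
where `Φ = G(1)` is Deligne's associator. -/
def IsAssociator (Ψ : List Bool → ℚ_[p]) : Prop :=
  ∃ (G : List Bool → PowerSeries ℚ_[p]) (b : List Bool → ℚ_[p]), IsFrobenius p G b ∧ Ψ [] = 1 ∧
    Ψ = cmul (fun w => valueOne (G w)) (subSeries p b Ψ)

open Pool.Agent.Work.MP_03df5c_h91 in
/-- The word `A^(s 0 - 1) B A^(s 1 - 1) B ⋯ A^(s r - 1) B` of an index. -/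
def indexWord (s : MZVIndex) : List Bool :=
  (List.ofFn fun i => List.replicate (s.s i - 1) false ++ [true]).flatten

end Pool.Agent.Work.MP_03df5c_all
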