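import Pool.Agent.Work.MP_03df5c_all.Log

open Finset PowerSeries

namespace Pool.Agent.Work.MP_03df5c_all

section algebra

variable {R : Type*} [CommRing R]

lemma cmul_nil (f g : List Bool → R) : cmul f g [] = f [] * g [] := by
  simp [cmul]

lemma letter_nil (c : Bool) : letter R c [] = 0 := by
  simp [letter]

lemma cmul_congr {f f' g g' : List Bool → R} {w : List Bool}
    (h : ∀ i ∈ range (w.length + 1), f (w.take i) * g (w.drop i) = f' (w.take i) * g' (w.drop i)) :
    cmul f g w = cmul f' g' w := sum_congr rfl h

lemma cmul_letter_congr {c : Bool} {g g' : List Bool → R} {w : List Bool}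
    (h : ∀ u, u.length < w.length → g u = g' u) :
    cmul (letter R c) g w = cmul (letter R c) g' w := by
  refine cmul_congr fun i hi => ?_
  rw [mem_range] at hi
  rcases Nat.eq_zero_or_pos i with h0 | h0
  · subst h0
    rw [List.take_zero, letter_nil, zero_mul, zero_mul]
  · rw [h]
    rw [List.length_drop]
    omega

lemma cmul_right_congr {f f' g g' : List Bool → R} {w : List Bool}
    (h : ∀ u, u.length < w.length → f u = f' u) (hg : ∀ v, v.length ≤ w.length → g v = g' v)
    (h0 : g [] = 0) : cmul f g w = cmul f' g' w := by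
  refine cmul_congr fun i hi => ?_
  rw [mem_range] at hi
  rw [← hg (w.drop i) (by rw [List.length_drop]; omega)]
  rcases Nat.lt_or_ge i w.length with h1 | h1
  · rw [h]
    rw [List.length_take]
    omega
  · rw [List.drop_eq_nil_of_le h1, h0, mul_zero, mul_zero]

lemma cmul_of_unit {f g : List Bool → R} {w : List Bool} (hw : w ≠ []) (hf : f [] = 1)
    (hg : g [] = 0) :
    cmul f g w = g w + ∑ i ∈ Ico 1 w.length, f (w.take i) * g (w.drop i) := by
  have hl : 0 < w.length := List.length_pos_iff.2 hw
  unfold cmul
  rw [sum_range_succ, List.drop_length, hg, mul_zero, add_zero,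
    ← Finset.sum_range_add_sum_Ico _ (show 1 ≤ w.length from hl), sum_range_one, List.take_zero,
    List.drop_zero, hf, one_mul]

end algebra

variable {p : ℕ} [hp : Fact p.Prime]

lemma b_nil {G : List Bool → PowerSeries ℚ_[p]} {b : List Bool → ℚ_[p]} (h : IsFrobenius p G b) :
    b [] = 0 := by
  have h1 := congrFun h.conj []
  rw [cmul_nil, cmul_nil, letter_nil, zero_mul, h.nil, valueOne_one, one_mul] at h1
  exact h1.symm

lemma b_eq {G : List Bool → PowerSeries ℚ_[p]} {b : List Bool → ℚ_[p]} (h : IsFrobenius p G b)
    {w : List Bool} (hw : w ≠ []) :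
    b w = cmul (letter _ true) (fun w => valueOne (G w)) w
      - ∑ i ∈ Ico 1 w.length, valueOne (G (w.take i)) * b (w.drop i) := by
  have h1 := congrFun h.conj w
  rw [h1, cmul_of_unit hw (by simp only [h.nil, valueOne_one]) (b_nil h)]
  ring

theorem stmt_BLET : Stmt_BLET := by
  intro p hp G b h
  refine ⟨b_nil h, ?_, ?_⟩
  · rw [b_eq h (by simp)]
    simp [cmul, letter, sum_range_succ]
  · rw [b_eq h (by simp)]
    simp [cmul, letter, sum_range_succ, h.nil, valueOne_one]

/-- The right-hand side of the ode. -/
noncomputable def odeRHS (G : List Bool → PowerSeries ℚ_[p]) (b : List Bool → ℚ_[p])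
    (w : List Bool) : PowerSeries ℚ_[p] :=
  (p : PowerSeries ℚ_[p]) * frobD p *
        ((1 - X) * (cmul (letter _ false) G w - cmul G (letter _ false) w)
          - X * (cmul (letter _ true) G w - cmul G (fun v => C (b v)) w))
      + X * (1 - X) * d⁄dX ℚ_[p] (frobD p) *
        (cmul G (letter _ false) w + cmul G (fun v => C (b v)) w)

lemma odeRHS_congr {G G' : List Bool → PowerSeries ℚ_[p]} {b b' : List Bool → ℚ_[p]}
    {w : List Bool} (hG : ∀ u, u.length < w.length → G u = G' u)
    (hb : ∀ v, v.length ≤ w.length → b v = b' v) (h0 : b [] = 0) :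
    odeRHS G b w = odeRHS G' b' w := by
  unfold odeRHS
  have h1 : cmul (letter _ false) G w = cmul (letter _ false) G' w := cmul_letter_congr hG
  have h2 : cmul (letter _ true) G w = cmul (letter _ true) G' w := cmul_letter_congr hG
  have h3 : cmul G (letter _ false) w = cmul G' (letter _ false) w :=
    cmul_right_congr hG (fun _ _ => rfl) (letter_nil _)
  have h4 : cmul G (fun v => C (b v)) w = cmul G' (fun v => C (b' v)) w :=
    cmul_right_congr hG (fun v hv => by simp only [hb v hv]) (by simp [h0])
  rw [h1, h2, h3, h4]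

lemma lhs_ne_zero : (p : PowerSeries ℚ_[p]) * X * (1 - X) * frobD p ≠ 0 := by
  have h1 : (p : PowerSeries ℚ_[p]) ≠ 0 := by
    intro h
    have h2 := congrArg constantCoeff h
    simp only [map_natCast, map_zero] at h2
    exact hp.out.ne_zero (by exact_mod_cast h2)
  have h3 : (p : PowerSeries ℚ_[p]) * X * (1 - X) * frobD p
      = (p : PowerSeries ℚ_[p]) * (X * (1 - X)) * frobD p := by ring
  rw [h3]
  exact mul_ne_zero (mul_ne_zero h1 X_mul_ne_zero) frobD_ne_zero

theorem stmt_UNF : Stmt_UNF := by
  intro p hp G G' b b' h h'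
  have key : ∀ n : ℕ, ∀ w : List Bool, w.length ≤ n → G w = G' w ∧ b w = b' w := by
    intro n
    induction n with
    | zero =>
      intro w hw
      have : w = [] := List.length_eq_zero_iff.1 (by omega)
      subst this
      exact ⟨h.nil.trans h'.nil.symm, (b_nil h).trans (b_nil h').symm⟩
    | succ n ih =>
      intro w hw
      rcases Nat.lt_or_ge n w.length with h1 | h1
      · have hw0 : w ≠ [] := by
          rintro rfl
          simp at h1
        have hG : ∀ u, u.length < w.length → G u = G' u := fun u hu => (ih u (by omega)).1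
        have hbw : b w = b' w := by
          rw [b_eq h hw0, b_eq h' hw0]
          have h2 : cmul (letter ℚ_[p] true) (fun w => valueOne (G w)) w
              = cmul (letter ℚ_[p] true) (fun w => valueOne (G' w)) w :=
            cmul_letter_congr fun u hu => by simp only [hG u hu]
          rw [h2]
          congr 1
          refine sum_congr rfl fun i hi => ?_
          rw [mem_Ico] at hi
          rw [hG (w.take i) (by rw [List.length_take]; omega),
            (ih (w.drop i) (by rw [List.length_drop]; omega)).2]
        have hb : ∀ v, v.length ≤ w.length → b v = b' v := by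
          intro v hv
          rcases Nat.lt_or_ge n v.length with h2 | h2
          · -- v has length n+1 as well; repeat the argument
            have hv0 : v ≠ [] := by
              rintro rfl
              simp at h2
            have hlv : v.length = w.length := by omega
            rw [b_eq h hv0, b_eq h' hv0]
            have h3 : cmul (letter ℚ_[p] true) (fun w => valueOne (G w)) v
                = cmul (letter ℚ_[p] true) (fun w => valueOne (G' w)) v :=
              cmul_letter_congr fun u hu => by simp only [hG u (by omega)]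
            rw [h3]
            congr 1
            refine sum_congr rfl fun i hi => ?_
            rw [mem_Ico] at hi
            rw [hG (v.take i) (by rw [List.length_take]; omega),
              (ih (v.drop i) (by rw [List.length_drop]; omega)).2]
          · exact (ih v h2).2
        refine ⟨?_, hbw⟩
        have h2 : odeRHS G b w = odeRHS G' b' w := odeRHS_congr hG hb (b_nil h)
        have h3 : d⁄dX ℚ_[p] (G w) = d⁄dX ℚ_[p] (G' w) :=
          mul_left_cancel₀ lhs_ne_zero ((h.ode w).trans (h2.trans (h'.ode w).symm))
        rw [eq_integ (h.zero w hw0) rfl, eq_integ (h'.zero w hw0) rfl, h3]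
      · exact ih w h1
  exact ⟨funext fun w => (key w.length w le_rfl).1, funext fun w => (key w.length w le_rfl).2⟩

/-- The data are good up to length `n`. -/
structure Good (n : ℕ) (x : (List Bool → PowerSeries ℚ_[p]) × (List Bool → ℚ_[p])) : Prop where
  nil : x.1 [] = 1
  bnil : x.2 [] = 0
  zero : ∀ w, w ≠ [] → w.length ≤ n → constantCoeff (x.1 w) = 0
  oc : ∀ w, w.length ≤ n → Overconvergent (x.1 w)
  conj : ∀ w, w.length ≤ n → cmul (letter _ true) (fun w => valueOne (x.1 w)) w
    = cmul (fun w => valueOne (x.1 w)) x.2 w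
  ode : ∀ w, w.length ≤ n → (p : PowerSeries ℚ_[p]) * X * (1 - X) * frobD p *
    d⁄dX ℚ_[p] (x.1 w) = odeRHS x.1 x.2 w

lemma conj_congr {G G' : List Bool → PowerSeries ℚ_[p]} {b b' : List Bool → ℚ_[p]}
    {w : List Bool} (hG : ∀ u, u.length ≤ w.length → G u = G' u)
    (hb : ∀ v, v.length ≤ w.length → b v = b' v)
    (h : cmul (letter _ true) (fun w => valueOne (G w)) w = cmul (fun w => valueOne (G w)) b w) :
    cmul (letter _ true) (fun w => valueOne (G' w)) w = cmul (fun w => valueOne (G' w)) b' w := by
  have h1 : cmul (letter ℚ_[p] true) (fun w => valueOne (G w)) w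
      = cmul (letter ℚ_[p] true) (fun w => valueOne (G' w)) w :=
    cmul_letter_congr fun u hu => by simp only [hG u hu.le]
  have h2 : cmul (fun w => valueOne (G w)) b w = cmul (fun w => valueOne (G' w)) b' w := by
    refine cmul_congr fun i hi => ?_
    rw [hG (w.take i) (by rw [List.length_take]; omega),
      hb (w.drop i) (by rw [List.length_drop]; omega)]
  rw [← h1, ← h2, h]

lemma good_zero : Good (p := p) 0 (fun w => if w = [] then 1 else 0, fun _ => 0) := by
  have hlen : ∀ w : List Bool, w.length ≤ 0 → w = [] := fun w hw =>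
    List.length_eq_zero_iff.1 (by omega)
  refine ⟨by simp, rfl, ?_, ?_, ?_, ?_⟩
  · intro w hw hl
    exact absurd (hlen w hl) hw
  · intro w hl
    rw [hlen w hl]
    simpa using oc_one
  · intro w hl
    rw [hlen w hl, cmul_nil, cmul_nil, letter_nil]
    simp
  · intro w hl
    rw [hlen w hl]
    unfold odeRHS
    simp only [cmul_nil, letter_nil]
    have h1 : d⁄dX ℚ_[p] (1 : PowerSeries ℚ_[p]) = 0 := Derivation.map_one_eq_zero _
    simp [h1]

lemma constantCoeff_cmul_left {G : List Bool → PowerSeries ℚ_[p]} {w : List Bool} {c : Bool}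
    (hnil : G [] = 1) (hz : ∀ u, u ≠ [] → u.length < w.length → constantCoeff (G u) = 0)
    (hw : w ≠ []) :
    constantCoeff (cmul (letter _ c) G w) = letter ℚ_[p] c w := by
  unfold cmul
  rw [map_sum, sum_range_succ, sum_eq_zero, zero_add]
  · rw [List.take_length, List.drop_length, hnil, mul_one]
    unfold letter
    split_ifs <;> simp
  · intro i hi
    rw [mem_range] at hi
    rcases Nat.eq_zero_or_pos i with h0 | h0
    · subst h0
      rw [List.take_zero, letter_nil, zero_mul, map_zero]
    · rw [map_mul, hz (w.drop i), mul_zero]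
      · intro h
        have := congrArg List.length h
        rw [List.length_drop] at this
        simp at this
        omega
      · rw [List.length_drop]
        omega

lemma constantCoeff_cmul_right {G : List Bool → PowerSeries ℚ_[p]} {w : List Bool} {c : Bool}
    (hnil : G [] = 1) (hz : ∀ u, u ≠ [] → u.length < w.length → constantCoeff (G u) = 0)
    (hw : w ≠ []) :
    constantCoeff (cmul G (letter _ c) w) = letter ℚ_[p] c w := by
  have hl : 0 < w.length := List.length_pos_iff.2 hw
  rw [cmul_of_unit hw hnil (letter_nil c), map_add, map_sum, sum_eq_zero, add_zero]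
  · unfold letter
    split_ifs <;> simp
  · intro i hi
    rw [mem_Ico] at hi
    rw [map_mul, hz (w.take i), zero_mul]
    · intro h
      rw [List.take_eq_nil_iff] at h
      rcases h with h | h
      · omega
      · exact hw h
    · rw [List.length_take]
      omega

lemma oc_letter (c : Bool) (w : List Bool) :
    Overconvergent (letter (PowerSeries ℚ_[p]) c w) := by
  unfold letter
  split_ifs
  · exact oc_one
  · have := oc_C (p := p) 0
    simpa using this

lemma oc_zero : Overconvergent (0 : PowerSeries ℚ_[p]) := by
  have := oc_C (p := p) 0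
  simpa using this

lemma oc_cmul_left {G : List Bool → PowerSeries ℚ_[p]} {w : List Bool} {c : Bool}
    (hoc : ∀ u, u.length < w.length → Overconvergent (G u)) :
    Overconvergent (cmul (letter _ c) G w) ∧
      valueOne (cmul (letter _ c) G w) = cmul (letter _ c) (fun u => valueOne (G u)) w := by
  have hterm : ∀ i ∈ range (w.length + 1),
      Overconvergent (letter (PowerSeries ℚ_[p]) c (w.take i) * G (w.drop i)) ∧
      valueOne (letter (PowerSeries ℚ_[p]) c (w.take i) * G (w.drop i))
        = letter ℚ_[p] c (w.take i) * valueOne (G (w.drop i)) := by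
    intro i hi
    rw [mem_range] at hi
    rcases Nat.eq_zero_or_pos i with h0 | h0
    · subst h0
      rw [List.take_zero, letter_nil, zero_mul, letter_nil, zero_mul]
      exact ⟨oc_zero, valueOne_zero⟩
    · have h1 := hoc (w.drop i) (by rw [List.length_drop]; omega)
      refine ⟨oc_mul (oc_letter _ _) h1, ?_⟩
      rw [valueOne_mul (oc_letter _ _) h1]
      congr 1
      unfold letter
      split_ifs
      · exact valueOne_one
      · exact valueOne_zero
  refine ⟨oc_sum _ _ fun i hi => (hterm i hi).1, ?_⟩
  unfold cmul
  rw [valueOne_sum _ _ fun i hi => (hterm i hi).1]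
  exact sum_congr rfl fun i hi => (hterm i hi).2

lemma oc_cmul_right {G g : List Bool → PowerSeries ℚ_[p]} {w : List Bool}
    (hoc : ∀ u, u.length < w.length → Overconvergent (G u)) (hg : ∀ v, Overconvergent (g v))
    (h0 : g [] = 0) :
    Overconvergent (cmul G g w) ∧
      valueOne (cmul G g w) = cmul (fun u => valueOne (G u)) (fun v => valueOne (g v)) w := by
  have hterm : ∀ i ∈ range (w.length + 1),
      Overconvergent (G (w.take i) * g (w.drop i)) ∧
      valueOne (G (w.take i) * g (w.drop i))
        = valueOne (G (w.take i)) * valueOne (g (w.drop i)) := by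
    intro i hi
    rw [mem_range] at hi
    rcases Nat.lt_or_ge i w.length with h1 | h1
    · have h2 := hoc (w.take i) (by rw [List.length_take]; omega)
      exact ⟨oc_mul h2 (hg _), valueOne_mul h2 (hg _)⟩
    · rw [List.drop_eq_nil_of_le h1, h0, mul_zero, valueOne_zero, mul_zero]
      exact ⟨oc_zero, rfl⟩
  refine ⟨oc_sum _ _ fun i hi => (hterm i hi).1, ?_⟩
  unfold cmul
  rw [valueOne_sum _ _ fun i hi => (hterm i hi).1]
  exact sum_congr rfl fun i hi => (hterm i hi).2

lemma exists_good_succ (n : ℕ) (x : (List Bool → PowerSeries ℚ_[p]) × (List Bool → ℚ_[p]))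
    (hx : Good n x) : ∃ y : (List Bool → PowerSeries ℚ_[p]) × (List Bool → ℚ_[p]),
    Good (n + 1) y ∧ ∀ w, w.length ≤ n → y.1 w = x.1 w ∧ y.2 w = x.2 w := by
  obtain ⟨G, b⟩ := x
  have hGnil : G [] = 1 := hx.nil
  have hbnil : b [] = 0 := hx.bnil
  have hGz : ∀ w, w ≠ [] → w.length ≤ n → constantCoeff (G w) = 0 := hx.zero
  have hGoc : ∀ w, w.length ≤ n → Overconvergent (G w) := hx.oc
  -- new `b`
  set b' : List Bool → ℚ_[p] := fun w => if w.length ≤ n then b w else
    cmul (letter _ true) (fun w => valueOne (G w)) w
      - ∑ i ∈ Ico 1 w.length, valueOne (G (w.take i)) * b (w.drop i) with hb'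
  set f : List Bool → PowerSeries ℚ_[p] := fun w =>
    (1 - X) * (cmul (letter _ false) G w - cmul G (letter _ false) w)
      - X * (cmul (letter _ true) G w - cmul G (fun v => C (b' v)) w) with hf
  set h : List Bool → PowerSeries ℚ_[p] := fun w =>
    divX (f w) + del p * (cmul G (letter _ false) w + cmul G (fun v => C (b' v)) w) with hh
  set G' : List Bool → PowerSeries ℚ_[p] := fun w => if w.length ≤ n then G w else integ (h w)
    with hG'
  have e1 : ∀ w, w.length ≤ n → G' w = G w := fun w hw => by simp only [hG', if_pos hw]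
  have e2 : ∀ w, w.length ≤ n → b' w = b w := fun w hw => by simp only [hb', if_pos hw]
  have b'nil : b' [] = 0 := by rw [e2 [] (by simp), hbnil]
  have ocb : ∀ v, Overconvergent ((fun v => C (b' v)) v : PowerSeries ℚ_[p]) := fun v => oc_C _
  have ocl : ∀ v, Overconvergent ((letter (PowerSeries ℚ_[p]) false) v) := fun v => oc_letter _ _
  -- facts for words of length n+1
  have key : ∀ w : List Bool, w.length = n + 1 →
      Overconvergent (f w) ∧ constantCoeff (f w) = 0 ∧ valueOne (f w) = 0 ∧
      Overconvergent (h w) ∧
      cmul (letter _ true) (fun w => valueOne (G w)) w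
        = cmul (fun w => valueOne (G w)) b' w := by
    intro w hw
    have hw0 : w ≠ [] := by
      rintro rfl
      simp at hw
    have hoc : ∀ u, u.length < w.length → Overconvergent (G u) := fun u hu =>
      hGoc u (by omega)
    have hz : ∀ u, u ≠ [] → u.length < w.length → constantCoeff (G u) = 0 := fun u hu hl =>
      hGz u hu (by omega)
    obtain ⟨o1, v1⟩ := oc_cmul_left (c := false) hoc
    obtain ⟨o2, v2⟩ := oc_cmul_left (c := true) hoc
    obtain ⟨o3, v3⟩ := oc_cmul_right (g := letter _ false) hoc ocl (letter_nil _)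
    obtain ⟨o4, v4⟩ := oc_cmul_right (g := fun v => C (b' v)) hoc ocb (by simp [b'nil])
    have hconj : cmul (letter _ true) (fun w => valueOne (G w)) w
        = cmul (fun w => valueOne (G w)) b' w := by
      rw [cmul_of_unit hw0 (by simp only [hGnil, valueOne_one]) b'nil]
      have h1 : b' w = cmul (letter _ true) (fun w => valueOne (G w)) w
          - ∑ i ∈ Ico 1 w.length, valueOne (G (w.take i)) * b (w.drop i) := by
        simp only [hb', if_neg (show ¬ w.length ≤ n by omega)]
      have h2 : ∑ i ∈ Ico 1 w.length, valueOne (G (w.take i)) * b' (w.drop i)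
          = ∑ i ∈ Ico 1 w.length, valueOne (G (w.take i)) * b (w.drop i) := by
        refine sum_congr rfl fun i hi => ?_
        rw [mem_Ico] at hi
        rw [e2 (w.drop i) (by rw [List.length_drop]; omega)]
      rw [h1, h2]
      ring
    have o5 : Overconvergent (1 - X : PowerSeries ℚ_[p]) := oc_sub oc_one oc_X
    have of : Overconvergent (f w) :=
      oc_sub (oc_mul o5 (oc_sub o1 o3)) (oc_mul oc_X (oc_sub o2 o4))
    have cf : constantCoeff (f w) = 0 := by
      simp only [hf]
      rw [map_sub, map_mul, map_mul, map_sub, map_sub,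
        constantCoeff_cmul_left hGnil hz hw0, constantCoeff_cmul_right hGnil hz hw0]
      simp
    have vf : valueOne (f w) = 0 := by
      simp only [hf]
      rw [valueOne_sub (oc_mul o5 (oc_sub o1 o3)) (oc_mul oc_X (oc_sub o2 o4)),
        valueOne_mul o5 (oc_sub o1 o3), valueOne_mul oc_X (oc_sub o2 o4),
        valueOne_sub oc_one oc_X, valueOne_one, valueOne_X, sub_self, zero_mul,
        valueOne_sub o2 o4, v2, v4, one_mul, zero_sub, neg_eq_zero, sub_eq_zero, hconj]
      refine cmul_congr fun i _ => ?_
      simp only [valueOne_C]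
    have odiv : Overconvergent (divX (f w)) := by
      obtain ⟨g, hg, hgf⟩ := stmt_OCD p (f w) of cf vf
      rwa [eq_divX hgf] at hg
    have odel : Overconvergent (del p) := by
      obtain ⟨r, hr, hrp⟩ := exists_radius p
      unfold del
      exact oc_mul ⟨r, hr, 1, bd_inv hr.le hrp⟩ ⟨r, hr, _, bd_dEP hr.le⟩
    exact ⟨of, cf, vf, oc_add odiv (oc_mul odel (oc_add o3 o4)), hconj⟩
  have agreeG : ∀ w u : List Bool, w.length = n + 1 → u.length < w.length → G u = G' u :=
    fun w u hw hu => (e1 u (by omega)).symm
  refine ⟨(G', b'), ⟨?_, b'nil, ?_, ?_, ?_, ?_⟩, fun w hw => ⟨e1 w hw, e2 w hw⟩⟩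
  · show G' [] = 1
    rw [e1 [] (by simp), hGnil]
  · intro w hw hl
    rcases Nat.lt_or_ge n w.length with h1 | h1
    · simp only [hG', if_neg (show ¬ w.length ≤ n by omega)]
      rw [← coeff_zero_eq_constantCoeff_apply, coeff_integ_zero]
    · simp only [e1 w h1]
      exact hGz w hw h1
  · intro w hl
    rcases Nat.lt_or_ge n w.length with h1 | h1
    · simp only [hG', if_neg (show ¬ w.length ≤ n by omega)]
      exact oc_integ (key w (by omega)).2.2.2.1
    · simp only [e1 w h1]
      exact hGoc w h1
  · intro w hl
    rcases Nat.lt_or_ge n w.length with h1 | h1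
    · have hw : w.length = n + 1 := by omega
      have h2 := (key w hw).2.2.2.2
      have h3 : cmul (letter ℚ_[p] true) (fun w => valueOne (G w)) w
          = cmul (letter ℚ_[p] true) (fun w => valueOne (G' w)) w :=
        cmul_letter_congr fun u hu => by simp only [agreeG w u hw hu]
      have h4 : cmul (fun w => valueOne (G w)) b' w = cmul (fun w => valueOne (G' w)) b' w :=
        cmul_right_congr (fun u hu => by simp only [agreeG w u hw hu]) (fun _ _ => rfl) b'nil
      exact h3.symm.trans (h2.trans h4)
    · exact conj_congr (fun u hu => (e1 u (by omega)).symm) (fun v hv => (e2 v (by omega)).symm)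
        (hx.conj w h1)
  · intro w hl
    rcases Nat.lt_or_ge n w.length with h1 | h1
    · have hw : w.length = n + 1 := by omega
      have h2 : odeRHS G b' w = odeRHS G' b' w :=
        odeRHS_congr (fun u hu => agreeG w u hw hu) (fun _ _ => rfl) b'nil
      show _ * d⁄dX ℚ_[p] (G' w) = odeRHS G' b' w
      rw [← h2]
      have h3 : G' w = integ (h w) := by
        simp only [hG', if_neg (show ¬ w.length ≤ n by omega)]
      rw [h3, deriv_integ]
      have h4 := mul_divX (key w hw).2.1
      have h5 := mul_del (p := p)
      simp only [hh]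
      unfold odeRHS
      simp only [hf] at h4 ⊢
      linear_combination ((p : PowerSeries ℚ_[p]) * frobD p) * h4
        + (X * (1 - X) * (cmul G (letter _ false) w + cmul G (fun v => C (b' v)) w)) * h5
    · have h2 : odeRHS G b w = odeRHS G' b' w :=
        odeRHS_congr (fun u hu => (e1 u (by omega)).symm) (fun v hv => (e2 v (by omega)).symm)
          hbnil
      show _ * d⁄dX ℚ_[p] (G' w) = odeRHS G' b' w
      rw [← h2, e1 w h1]
      exact hx.ode w h1

theorem stmt_EXF : Stmt_EXF := by
  intro p hp
  let S : ℕ → Type := fun n =>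
    {x : (List Bool → PowerSeries ℚ_[p]) × (List Bool → ℚ_[p]) // Good n x}
  have hstep : ∀ n (x : S n), ∃ y : S (n + 1), ∀ w, w.length ≤ n →
      y.1.1 w = x.1.1 w ∧ y.1.2 w = x.1.2 w := by
    intro n x
    obtain ⟨y, hy, hxy⟩ := exists_good_succ n x.1 x.2
    exact ⟨⟨y, hy⟩, hxy⟩
  choose step hstep' using hstep
  let D : (n : ℕ) → S n := fun n => Nat.rec (motive := S) ⟨_, good_zero⟩ (fun n x => step n x) n
  have hD : ∀ n w, w.length ≤ n → (D (n + 1)).1.1 w = (D n).1.1 w ∧
      (D (n + 1)).1.2 w = (D n).1.2 w := fun n w hw => hstep' n (D n) w hw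
  have hD' : ∀ n k w, w.length ≤ n → (D (n + k)).1.1 w = (D n).1.1 w ∧
      (D (n + k)).1.2 w = (D n).1.2 w := by
    intro n k w hw
    induction k with
    | zero => exact ⟨rfl, rfl⟩
    | succ k ih =>
      have h1 := hD (n + k) w (by omega)
      exact ⟨h1.1.trans ih.1, h1.2.trans ih.2⟩
  have hD'' : ∀ m w, w.length ≤ m → (D m).1.1 w = (D w.length).1.1 w ∧
      (D m).1.2 w = (D w.length).1.2 w := by
    intro m w hw
    have := hD' w.length (m - w.length) w le_rfl
    rwa [Nat.add_sub_cancel' hw] at this
  refine ⟨fun w => (D w.length).1.1 w, fun w => (D w.length).1.2 w, ?_, ?_, ?_, ?_, ?_⟩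
  · exact (D 0).2.nil
  · intro w hw
    exact (D w.length).2.zero w hw le_rfl
  · intro w
    exact (D w.length).2.oc w le_rfl
  · funext w
    exact conj_congr (fun u hu => (hD'' w.length u hu).1) (fun v hv => (hD'' w.length v hv).2)
      ((D w.length).2.conj w le_rfl)
  · intro w
    have h1 := (D w.length).2.ode w le_rfl
    have h2 : odeRHS (D w.length).1.1 (D w.length).1.2 w
        = odeRHS (fun w => (D w.length).1.1 w) (fun w => (D w.length).1.2 w) w :=
      odeRHS_congr (fun u hu => (hD'' w.length u hu.le).1) (fun v hv => (hD'' w.length v hv).2)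
        (D w.length).2.bnil
    rw [h2] at h1
    exact h1

end Pool.Agent.Work.MP_03df5c_all
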