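import Pool.Agent.Work.MP_03df5c_all.Defs

/-!
# Furusho's p-adic multiple zeta values and the transfer of relations
-/

open Finset PowerSeries Pool.Agent.Work.MP_03df5c_h91

namespace Pool.Agent.Work.MP_03df5c_all

/-- The `p`-adic multiple zeta value `ζ_p(s 0, …, s r)`: up to the sign `(-1)^(r+1)` the coefficient
of the word `A^(s 0 - 1) B ⋯ A^(s r - 1) B` in the unique associator `Ψ` with `IsAssociator p Ψ`. -/
noncomputable def zetaPadic (p : ℕ) [Fact p.Prime] (s : MZVIndex) : ℚ_[p] :=
  (-1) ^ (s.r + 1) * Classical.epsilon (IsAssociator p) (indexWord s)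

/-- Every polynomial relation with rational coefficients between the real multiple zeta values
`ζ(s i)` also holds between the `p`-adic multiple zeta values `ζ_p(s i)`. -/
def Transfers {m : ℕ} (s : Fin m → MZVIndex) (p : ℕ) [Fact p.Prime] : Prop :=
  ∀ f : MvPolynomial (Fin m) ℚ, MvPolynomial.aeval (fun i => mzv (s i)) f = 0 →
    MvPolynomial.aeval (fun i => zetaPadic p (s i)) f = 0

end Pool.Agent.Work.MP_03df5c_all
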