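import Pool.Agent.Work.MP_03df5c_all.Interface
import Pool.Agent.Work.MP_03df5c_all.Zeta

open Finset PowerSeries Pool.Agent.Work.MP_03df5c_h91

namespace Pool.Agent.Work.MP_03df5c_all

lemma length_indexWord (s : MZVIndex) : 1 ≤ (indexWord s).length := by
  unfold indexWord
  rw [List.ofFn_succ]
  simp
  omega

lemma norm_zetaPadic (hUNA : Stmt_UNA) (hS : Stmt_SMALL) (s : MZVIndex) :
    ∃ p₀ : ℕ, ∀ (p : ℕ) [Fact p.Prime], p₀ ≤ p → ‖zetaPadic p s‖ ≤ (p : ℝ)⁻¹ := by
  obtain ⟨p₀, h⟩ := hS (indexWord s).length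
  refine ⟨p₀, fun p _ hp => ?_⟩
  have hex : ∃ Ψ, IsAssociator p Ψ := (hUNA p).exists
  have h1 := h p hp _ (Classical.epsilon_spec hex) (indexWord s) (length_indexWord s) le_rfl
  unfold zetaPadic
  rw [norm_mul, norm_pow, norm_neg, norm_one, one_pow, one_mul]
  exact h1

theorem infinite_small (hUNA : Stmt_UNA) (hS : Stmt_SMALL) {m : ℕ} (s : Fin m → MZVIndex)
    (h : {p : ℕ | ∃ _ : Fact p.Prime, Transfers s p}.Infinite) :
    {p : ℕ | ∃ _ : Fact p.Prime, (∀ i, ‖zetaPadic p (s i)‖ ≤ (p : ℝ)⁻¹) ∧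
      ∀ f : MvPolynomial (Fin m) ℚ, MvPolynomial.aeval (fun i => mzv (s i)) f = 0 →
        MvPolynomial.aeval (fun i => zetaPadic p (s i)) f = 0}.Infinite := by
  choose q hq using fun i => norm_zetaPadic hUNA hS (s i)
  have hfin : (Set.Iio (∑ i, q i)).Finite := Set.finite_Iio _
  refine (h.sdiff hfin).mono ?_
  rintro p ⟨⟨hp, ht⟩, hlt⟩
  refine ⟨hp, fun i => ?_, ht⟩
  refine hq i p ?_
  have h1 : q i ≤ ∑ i, q i := Finset.single_le_sum (fun _ _ => Nat.zero_le _) (Finset.mem_univ i)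
  have h2 : ∑ i, q i ≤ p := by
    simpa using hlt
  omega

/-- Relations with algebraic coefficients have constant term zero. -/
theorem constant_term (hUNA : Stmt_UNA) (hS : Stmt_SMALL) (hTR : Stmt_TR) (m : ℕ)
    (s : Fin m → MZVIndex)
    (h : {p : ℕ | ∃ _ : Fact p.Prime, Transfers s p}.Infinite) (F : MvPolynomial (Fin m) ℂ)
    (hF : ∀ d, IsAlgebraic ℚ (F.coeff d))
    (h0 : MvPolynomial.eval (fun i => (mzv (s i) : ℂ)) F = 0) : F.coeff 0 = 0 :=
  hTR m (fun i => mzv (s i)) (fun p _ i => zetaPadic p (s i)) (infinite_small hUNA hS s h) F hF h0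

theorem single_iff (hUNA : Stmt_UNA) (hS : Stmt_SMALL) (hTR : Stmt_TR) (hMZ : Stmt_MZ)
    (s : MZVIndex) :
    (∀ (p : ℕ) (_ : Fact p.Prime), Transfers ![s] p) ↔ Transcendental ℚ (mzv s) := by
  constructor
  · intro h halg
    have hinf : {p : ℕ | ∃ _ : Fact p.Prime, Transfers ![s] p}.Infinite := by
      refine Nat.infinite_setOfPred_prime.mono ?_
      intro p hp
      exact ⟨⟨hp⟩, h p ⟨hp⟩⟩
    have halg' : IsAlgebraic ℚ ((mzv s : ℝ) : ℂ) := by
      have := halg.algebraMap (A := ℂ)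
      simpa using this
    have h1 := constant_term hUNA hS hTR 1 ![s] hinf
      (MvPolynomial.X 0 - MvPolynomial.C ((mzv s : ℝ) : ℂ)) (fun d => by
        rw [MvPolynomial.coeff_sub, MvPolynomial.coeff_C, MvPolynomial.coeff_X']
        refine IsAlgebraic.sub ?_ ?_
        · split_ifs
          · exact isAlgebraic_one
          · exact isAlgebraic_zero
        · split_ifs
          · exact halg'
          · exact isAlgebraic_zero) (by
        simp)
    have h2 : (mzv s : ℝ) = 0 := by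
      rw [MvPolynomial.coeff_sub, MvPolynomial.coeff_zero_C, MvPolynomial.coeff_zero_X] at h1
      have h3 : ((mzv s : ℝ) : ℂ) = 0 := by simpa using h1
      exact_mod_cast h3
    exact (hMZ s).ne' h2
  · intro h p hp f hf
    have hinj : Function.Injective (MvPolynomial.aeval (R := ℚ) (fun i : Fin 1 => mzv ((![s] : Fin 1 → MZVIndex) i))) := by
      have h1 : AlgebraicIndependent ℚ (fun i : Fin 1 => mzv ((![s] : Fin 1 → MZVIndex) i)) := by
        rw [algebraicIndependent_unique_type_iff]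
        simpa using h
      exact h1
    have h2 : f = 0 := hinj (by rw [hf, map_zero])
    rw [h2, map_zero]

end Pool.Agent.Work.MP_03df5c_all
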