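import Pool.Agent.Work.MP_03df5c_all.OC

open Finset PowerSeries

namespace Pool.Agent.Work.MP_03df5c_all

/-- `X^p + (1-X)^p` over the integers. -/
noncomputable def DZ (p : ℕ) : Polynomial ℤ := Polynomial.X ^ p + (1 - Polynomial.X) ^ p

lemma dvd_DZ (p : ℕ) [hp : Fact p.Prime] : Polynomial.C (p : ℤ) ∣ DZ p - 1 := by
  rw [Polynomial.C_dvd_iff_dvd_coeff]
  intro n
  have h1 : Polynomial.map (Int.castRingHom (ZMod p)) (DZ p - 1) = 0 := by
    have : Polynomial.map (Int.castRingHom (ZMod p)) (DZ p - 1)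
        = Polynomial.X ^ p + (1 - Polynomial.X) ^ p - 1 := by
      simp [DZ]
    rw [this, sub_pow_char (p := p)]
    ring
  have h2 := congrArg (fun f => Polynomial.coeff f n) h1
  simp only [Polynomial.coeff_map, Polynomial.coeff_zero] at h2
  exact (ZMod.intCast_zmod_eq_zero_iff_dvd _ _).1 h2

/-- The integral polynomial `E` with `D = 1 + p E`. -/
noncomputable def EZ (p : ℕ) [Fact p.Prime] : Polynomial ℤ := (dvd_DZ p).choose

lemma DZ_eq (p : ℕ) [Fact p.Prime] : DZ p = 1 + Polynomial.C (p : ℤ) * EZ p := by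
  have := (dvd_DZ p).choose_spec
  rw [EZ, ← this]
  ring

lemma natDegree_DZ_le (p : ℕ) : (DZ p).natDegree ≤ p := by
  unfold DZ
  refine (Polynomial.natDegree_add_le _ _).trans (max_le (Polynomial.natDegree_X_pow_le _) ?_)
  refine Polynomial.natDegree_pow_le.trans ?_
  have : (1 - Polynomial.X : Polynomial ℤ).natDegree ≤ 1 := by
    refine (Polynomial.natDegree_sub_le _ _).trans ?_
    simp
  calc p * (1 - Polynomial.X : Polynomial ℤ).natDegree ≤ p * 1 := Nat.mul_le_mul_left _ this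
    _ = p := mul_one p

lemma coeff_DZ_self (p : ℕ) (hp : Odd p) : (DZ p).coeff p = 0 := by
  have h1 : (1 - Polynomial.X : Polynomial ℤ) ^ p = -(Polynomial.X - 1) ^ p := by
    rw [← neg_sub (Polynomial.X : Polynomial ℤ) 1, hp.neg_pow]
  have h2 : ((Polynomial.X - 1 : Polynomial ℤ) ^ p).coeff p = 1 := by
    have h3 : (Polynomial.X - 1 : Polynomial ℤ) = Polynomial.X - Polynomial.C 1 := by simp
    have h4 : ((Polynomial.X - 1 : Polynomial ℤ) ^ p).Monic := by
      rw [h3]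
      exact (Polynomial.monic_X_sub_C 1).pow p
    have h5 : ((Polynomial.X - 1 : Polynomial ℤ) ^ p).natDegree = p := by
      rw [h3, Polynomial.natDegree_pow, Polynomial.natDegree_X_sub_C, mul_one]
    have h6 := h4.coeff_natDegree
    rwa [h5] at h6
  unfold DZ
  rw [h1, Polynomial.coeff_add, Polynomial.coeff_neg, h2, Polynomial.coeff_X_pow_self]
  ring

lemma coeff_EZ_mul (p : ℕ) [Fact p.Prime] (n : ℕ) :
    (p : ℤ) * (EZ p).coeff n = (DZ p).coeff n - (1 : Polynomial ℤ).coeff n := by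
  rw [DZ_eq p, Polynomial.coeff_add, Polynomial.coeff_C_mul]
  ring

lemma coeff_EZ_zero (p : ℕ) [hp : Fact p.Prime] : (EZ p).coeff 0 = 0 := by
  have h := coeff_EZ_mul p 0
  have hp0 : (p : ℤ) ≠ 0 := by exact_mod_cast hp.out.ne_zero
  have h1 : (DZ p).coeff 0 = 1 := by
    have : (DZ p).eval 0 = 1 := by
      simp [DZ, hp.out.ne_zero]
    rwa [Polynomial.coeff_zero_eq_eval_zero]
  rw [h1, Polynomial.coeff_one_zero, sub_self] at h
  exact (mul_eq_zero.1 h).resolve_left hp0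

lemma coeff_EZ_large (p : ℕ) [hp : Fact p.Prime] {n : ℕ} (hn : p < n) : (EZ p).coeff n = 0 := by
  have h := coeff_EZ_mul p n
  have hp0 : (p : ℤ) ≠ 0 := by exact_mod_cast hp.out.ne_zero
  rw [Polynomial.coeff_eq_zero_of_natDegree_lt ((natDegree_DZ_le p).trans_lt hn),
    Polynomial.coeff_one, if_neg (by omega), sub_self] at h
  exact (mul_eq_zero.1 h).resolve_left hp0

lemma coeff_EZ_self (p : ℕ) [hp : Fact p.Prime] (h3 : 3 ≤ p) : (EZ p).coeff p = 0 := by
  have h := coeff_EZ_mul p p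
  have hp0 : (p : ℤ) ≠ 0 := by exact_mod_cast hp.out.ne_zero
  have hodd : Odd p := hp.out.odd_of_ne_two (by omega)
  rw [coeff_DZ_self p hodd, Polynomial.coeff_one, if_neg (by omega), sub_self] at h
  exact (mul_eq_zero.1 h).resolve_left hp0

variable {p : ℕ} [hp : Fact p.Prime]

/-- The power series `E`. -/
noncomputable def EP (p : ℕ) [Fact p.Prime] : PowerSeries ℚ_[p] :=
  ((EZ p).map (Int.castRingHom ℚ_[p]) : Polynomial ℚ_[p])

lemma coeff_EP (n : ℕ) : coeff n (EP p) = ((EZ p).coeff n : ℚ_[p]) := by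
  unfold EP
  rw [Polynomial.coeff_coe, Polynomial.coeff_map]
  simp

lemma frobD_eq : frobD p = 1 + (p : PowerSeries ℚ_[p]) * EP p := by
  have h1 : frobD p = ((DZ p).map (Int.castRingHom ℚ_[p]) : Polynomial ℚ_[p]) := by
    unfold frobD DZ
    simp
  rw [h1, DZ_eq p]
  unfold EP
  simp only [Polynomial.map_add, Polynomial.map_one, Polynomial.map_mul, Polynomial.map_C,
    Polynomial.coe_add, Polynomial.coe_one, Polynomial.coe_mul, Polynomial.coe_C]
  simp

lemma constantCoeff_EP : constantCoeff (EP p) = 0 := by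
  rw [← coeff_zero_eq_constantCoeff_apply, coeff_EP, coeff_EZ_zero]
  simp

lemma constantCoeff_frobD : constantCoeff (frobD p) = 1 := by
  rw [frobD_eq]
  simp [constantCoeff_EP]

lemma norm_coeff_EP_le (n : ℕ) : ‖coeff n (EP p)‖ ≤ 1 := by
  rw [coeff_EP]
  exact Padic.norm_int_le_one _

lemma bd_EP {r : ℝ} (hr : 1 ≤ r) : Bd (EP p) r (r ^ p) := by
  intro n
  have hr0 : 0 ≤ r := by linarith
  rcases Nat.lt_or_ge p n with h | h
  · rw [coeff_EP, coeff_EZ_large p h]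
    simp only [Int.cast_zero, norm_zero, zero_mul]
    positivity
  · calc ‖coeff n (EP p)‖ * r ^ n ≤ 1 * r ^ p :=
        mul_le_mul (norm_coeff_EP_le n) (pow_le_pow_right₀ hr h) (by positivity) zero_le_one
      _ = r ^ p := one_mul _

lemma bd_EP' (h3 : 3 ≤ p) {r : ℝ} (hr : 1 ≤ r) : Bd (EP p) r (r ^ (p - 1)) := by
  intro n
  have hr0 : 0 ≤ r := by linarith
  rcases Nat.lt_or_ge (p - 1) n with h | h
  · have h0 : (EZ p).coeff n = 0 := by
      rcases Nat.lt_or_ge p n with h' | h'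
      · exact coeff_EZ_large p h'
      · have : n = p := by omega
        rw [this]
        exact coeff_EZ_self p h3
    rw [coeff_EP, h0]
    simp only [Int.cast_zero, norm_zero, zero_mul]
    positivity
  · calc ‖coeff n (EP p)‖ * r ^ n ≤ 1 * r ^ (p - 1) :=
        mul_le_mul (norm_coeff_EP_le n) (pow_le_pow_right₀ hr h) (by positivity) zero_le_one
      _ = r ^ (p - 1) := one_mul _

lemma norm_coeff_dEP (n : ℕ) : ‖coeff n (d⁄dX ℚ_[p] (EP p))‖ ≤ ‖coeff (n + 1) (EP p)‖ := by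
  rw [coeff_derivative, norm_mul]
  have : ‖((n : ℚ_[p]) + 1)‖ ≤ 1 := by
    have := Padic.norm_int_le_one (p := p) ((n : ℤ) + 1)
    simpa using this
  calc ‖coeff (n + 1) (EP p)‖ * ‖((n : ℚ_[p]) + 1)‖ ≤ ‖coeff (n + 1) (EP p)‖ * 1 := by gcongr
    _ = _ := mul_one _

lemma bd_dEP {r : ℝ} (hr : 1 ≤ r) : Bd (d⁄dX ℚ_[p] (EP p)) r (r ^ p) := by
  intro n
  have hr0 : 0 ≤ r := by linarith
  refine le_trans ?_ (bd_EP hr (n + 1))
  exact mul_le_mul (norm_coeff_dEP n) (pow_le_pow_right₀ hr (Nat.le_succ n)) (by positivity)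
    (norm_nonneg _)

lemma bd_dEP' (h3 : 3 ≤ p) {r : ℝ} (hr : 1 ≤ r) :
    Bd (d⁄dX ℚ_[p] (EP p)) r (r ^ (p - 2)) := by
  intro n
  have hr0 : 0 < r := by linarith
  have h1 := bd_EP' h3 hr (n + 1)
  have h2 : ‖coeff n (d⁄dX ℚ_[p] (EP p))‖ * r ^ n * r ≤ r ^ (p - 2) * r := by
    calc ‖coeff n (d⁄dX ℚ_[p] (EP p))‖ * r ^ n * r
        ≤ ‖coeff (n + 1) (EP p)‖ * r ^ n * r := by
          gcongr
          exact norm_coeff_dEP n
      _ = ‖coeff (n + 1) (EP p)‖ * r ^ (n + 1) := by ring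
      _ ≤ r ^ (p - 1) := h1
      _ = r ^ (p - 2) * r := by
          rw [← pow_succ]
          congr 1
          omega
  exact le_of_mul_le_mul_right h2 hr0

lemma norm_p : ‖(p : ℚ_[p])‖ = (p : ℝ)⁻¹ := Padic.norm_p

lemma bd_pEP {r : ℝ} (hr : 1 ≤ r) (hrp : r ^ p ≤ p) :
    Bd ((p : PowerSeries ℚ_[p]) * EP p) r 1 := by
  have hp0 : (0 : ℝ) < p := by exact_mod_cast hp.out.pos
  have h1 : Bd ((p : PowerSeries ℚ_[p])) r (p : ℝ)⁻¹ := by
    have := bd_C (p := p) (p : ℚ_[p]) (r := r)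
    rw [norm_p] at this
    simpa using this
  have h2 := h1.mul (by linarith) (bd_EP (p := p) hr)
  refine h2.mono (by linarith) le_rfl ?_
  rw [inv_mul_le_iff₀ hp0, mul_one]
  exact hrp

lemma frobD_ne_zero : frobD p ≠ 0 := by
  intro h
  have := constantCoeff_frobD (p := p)
  rw [h] at this
  simp at this

lemma frobD_mul_inv : frobD p * (frobD p)⁻¹ = 1 :=
  PowerSeries.mul_inv_cancel _ (by rw [constantCoeff_frobD]; exact one_ne_zero)

lemma bd_inv {r : ℝ} (hr : 1 ≤ r) (hrp : r ^ p ≤ p) : Bd ((frobD p)⁻¹) r 1 := by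
  have hr0 : 0 < r := by linarith
  have h1 : (frobD p)⁻¹ = 1 - ((p : PowerSeries ℚ_[p]) * EP p) * (frobD p)⁻¹ := by
    have := frobD_mul_inv (p := p)
    rw [frobD_eq] at this
    rw [frobD_eq]
    linear_combination this
  set u := (frobD p)⁻¹ with hu
  have hE := bd_pEP (p := p) hr hrp
  intro n
  induction n using Nat.strong_induction_on with
  | _ n ih =>
    rw [h1, map_sub]
    have h2 : ‖coeff n (1 : PowerSeries ℚ_[p])‖ ≤ 1 / r ^ n := by
      rw [le_div_iff₀ (by positivity)]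
      exact bd_one n
    have h3 : ‖coeff n ((p : PowerSeries ℚ_[p]) * EP p * u)‖ ≤ 1 / r ^ n := by
      rw [coeff_mul]
      refine norm_sum_le_of _ _ (by positivity) ?_
      intro x hx
      rw [Finset.HasAntidiagonal.mem_antidiagonal] at hx
      rcases Nat.eq_zero_or_pos x.1 with h0 | h0
      · rw [h0, coeff_zero_eq_constantCoeff_apply, map_mul, constantCoeff_EP, mul_zero, zero_mul,
          norm_zero]
        positivity
      · rw [norm_mul, le_div_iff₀ (by positivity), ← hx, pow_add]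
        have h4 := ih x.2 (by omega)
        calc ‖coeff x.1 ((p : PowerSeries ℚ_[p]) * EP p)‖ * ‖coeff x.2 u‖ * (r ^ x.1 * r ^ x.2)
            = (‖coeff x.1 ((p : PowerSeries ℚ_[p]) * EP p)‖ * r ^ x.1) *
              (‖coeff x.2 u‖ * r ^ x.2) := by ring
          _ ≤ 1 * 1 := mul_le_mul (hE _) h4 (by positivity) zero_le_one
          _ = 1 := one_mul 1
    have h5 : ‖coeff n (1 : PowerSeries ℚ_[p]) - coeff n ((p : PowerSeries ℚ_[p]) * EP p * u)‖
        ≤ 1 / r ^ n := by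
      rw [sub_eq_add_neg]
      refine (IsUltrametricDist.norm_add_le_max _ _).trans (max_le h2 ?_)
      rw [norm_neg]
      exact h3
    rwa [le_div_iff₀ (by positivity)] at h5

/-- The logarithmic derivative of `D`, divided by `p`. -/
noncomputable def del (p : ℕ) [Fact p.Prime] : PowerSeries ℚ_[p] :=
  (frobD p)⁻¹ * d⁄dX ℚ_[p] (EP p)

lemma derivative_frobD : d⁄dX ℚ_[p] (frobD p) = (p : PowerSeries ℚ_[p]) * d⁄dX ℚ_[p] (EP p) := by
  rw [frobD_eq, map_add, Derivation.leibniz]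
  have h1 : d⁄dX ℚ_[p] (1 : PowerSeries ℚ_[p]) = 0 := by
    exact Derivation.map_one_eq_zero _
  have h2 : d⁄dX ℚ_[p] ((p : PowerSeries ℚ_[p])) = 0 := Derivation.map_natCast _ _
  rw [h1, h2]
  simp

lemma mul_del : (p : PowerSeries ℚ_[p]) * frobD p * del p = d⁄dX ℚ_[p] (frobD p) := by
  unfold del
  rw [derivative_frobD]
  calc (p : PowerSeries ℚ_[p]) * frobD p * ((frobD p)⁻¹ * d⁄dX ℚ_[p] (EP p))
      = (p : PowerSeries ℚ_[p]) * (frobD p * (frobD p)⁻¹) * d⁄dX ℚ_[p] (EP p) := by ring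
    _ = (p : PowerSeries ℚ_[p]) * d⁄dX ℚ_[p] (EP p) := by rw [frobD_mul_inv, mul_one]

lemma exists_radius (p : ℕ) [hp : Fact p.Prime] : ∃ r : ℝ, 1 < r ∧ r ^ p ≤ p := by
  have h1 : (1 : ℝ) < p := by exact_mod_cast hp.out.one_lt
  have h0 : (p : ℝ) ≠ 0 := by positivity
  refine ⟨(p : ℝ) ^ ((p : ℝ)⁻¹), Real.one_lt_rpow h1 (by positivity), ?_⟩
  rw [← Real.rpow_natCast, ← Real.rpow_mul (by positivity), inv_mul_cancel₀ h0, Real.rpow_one]

theorem stmt_DEL : Stmt_DEL := by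
  intro p hp
  obtain ⟨r, hr, hrp⟩ := exists_radius p
  have hD : Overconvergent (frobD p) := by
    rw [frobD_eq]
    exact oc_add oc_one ⟨r, hr, 1, bd_pEP hr.le hrp⟩
  refine ⟨hD, del p, ?_, mul_del⟩
  unfold del
  exact oc_mul ⟨r, hr, 1, bd_inv hr.le hrp⟩ ⟨r, hr, _, bd_dEP hr.le⟩

lemma bd_del (h3 : 3 ≤ p) {r : ℝ} (hr : 1 ≤ r) (hrp : r ^ p ≤ p) :
    Bd (del p) r (r ^ (p - 2)) := by
  have := (bd_inv hr hrp).mul (by linarith) (bd_dEP' (p := p) h3 hr)
  rwa [one_mul] at this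

theorem stmt_DELB : Stmt_DELB := fun p _ r h3 hr hrp => ⟨del p, mul_del, bd_del h3 hr hrp⟩

end Pool.Agent.Work.MP_03df5c_all
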