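import Pool.Agent.Work.MP_03df5c_all.FrobD

open Finset PowerSeries

namespace Pool.Agent.Work.MP_03df5c_all

variable {p : ℕ} [hp : Fact p.Prime]

lemma Bd.pow {f : PowerSeries ℚ_[p]} {r C : ℝ} (hr : 0 ≤ r) (hf : Bd f r C) (k : ℕ) :
    Bd (f ^ k) r (C ^ k) := by
  induction k with
  | zero =>
    rw [pow_zero, pow_zero]
    exact bd_one
  | succ k ih =>
    rw [pow_succ, pow_succ]
    exact ih.mul hr hf

lemma Bd.sum {ι : Type*} (s : Finset ι) (f : ι → PowerSeries ℚ_[p]) {r C : ℝ} (hr : 0 ≤ r)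
    (hC : 0 ≤ C) (h : ∀ i ∈ s, Bd (f i) r C) : Bd (∑ i ∈ s, f i) r C := by
  classical
  induction s using Finset.induction_on with
  | empty =>
    rw [sum_empty]
    exact bd_zero hC
  | insert a s ha ih =>
    rw [sum_insert ha]
    exact (h a (mem_insert_self _ _)).add hr (ih fun i hi => h i (mem_insert_of_mem hi))

/-- Partial sums of the logarithm. -/
noncomputable def logSum (p : ℕ) [Fact p.Prime] (K : ℕ) : PowerSeries ℚ_[p] :=
  ∑ k ∈ range K, C ((-(p : ℚ_[p])) ^ k / ((k + 1 : ℕ) : ℚ_[p])) * EP p ^ (k + 1)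

lemma deriv_logSum (K : ℕ) : d⁄dX ℚ_[p] (logSum p K)
    = (∑ k ∈ range K, (-((p : PowerSeries ℚ_[p]) * EP p)) ^ k) * d⁄dX ℚ_[p] (EP p) := by
  unfold logSum
  rw [map_sum, sum_mul]
  refine sum_congr rfl fun k _ => ?_
  rw [Derivation.leibniz, Derivation.leibniz_pow]
  have h1 : d⁄dX ℚ_[p] (C ((-(p : ℚ_[p])) ^ k / ((k + 1 : ℕ) : ℚ_[p]))) = 0 := derivative_C
  rw [h1]
  have h2 : C ((-(p : ℚ_[p])) ^ k / ((k + 1 : ℕ) : ℚ_[p])) * ((k + 1 : ℕ) : PowerSeries ℚ_[p])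
      = (-(p : PowerSeries ℚ_[p])) ^ k := by
    have h3 : ((k + 1 : ℕ) : PowerSeries ℚ_[p]) = C (((k + 1 : ℕ) : ℚ_[p])) := by simp
    rw [h3, ← map_mul]
    have h4 : ((k + 1 : ℕ) : ℚ_[p]) ≠ 0 := by exact_mod_cast Nat.succ_ne_zero k
    rw [div_mul_cancel₀ _ h4]
    simp
  simp only [smul_eq_mul, nsmul_eq_mul, mul_zero, add_zero]
  have h5 : k + 1 - 1 = k := by omega
  rw [h5]
  calc C ((-(p : ℚ_[p])) ^ k / ((k + 1 : ℕ) : ℚ_[p])) *
        (((k + 1 : ℕ) : PowerSeries ℚ_[p]) * (EP p ^ k * d⁄dX ℚ_[p] (EP p)))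
      = (C ((-(p : ℚ_[p])) ^ k / ((k + 1 : ℕ) : ℚ_[p])) * ((k + 1 : ℕ) : PowerSeries ℚ_[p])) *
        (EP p ^ k * d⁄dX ℚ_[p] (EP p)) := by ring
    _ = (-((p : PowerSeries ℚ_[p]) * EP p)) ^ k * d⁄dX ℚ_[p] (EP p) := by
        rw [h2]
        ring

lemma frobD_mul_deriv_logSum (K : ℕ) : frobD p * d⁄dX ℚ_[p] (logSum p K)
    = (1 - (-((p : PowerSeries ℚ_[p]) * EP p)) ^ K) * d⁄dX ℚ_[p] (EP p) := by
  rw [deriv_logSum, ← mul_assoc]
  congr 1
  have h1 : frobD p = 1 - (-((p : PowerSeries ℚ_[p]) * EP p)) := by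
    rw [frobD_eq]
    ring
  rw [h1]
  exact mul_neg_geom_sum _ _

lemma coeff_del_eq {K n : ℕ} (hn : n < K) :
    coeff n (del p) = coeff n (d⁄dX ℚ_[p] (logSum p K)) := by
  have h1 : del p - d⁄dX ℚ_[p] (logSum p K)
      = (frobD p)⁻¹ * ((-((p : PowerSeries ℚ_[p]) * EP p)) ^ K * d⁄dX ℚ_[p] (EP p)) := by
    have h2 : d⁄dX ℚ_[p] (logSum p K)
        = (frobD p)⁻¹ * (frobD p * d⁄dX ℚ_[p] (logSum p K)) := by
      rw [← mul_assoc, mul_comm (frobD p)⁻¹, frobD_mul_inv, one_mul]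
    rw [h2, frobD_mul_deriv_logSum]
    unfold del
    ring
  obtain ⟨E1, hE1⟩ := X_dvd_iff.2 (constantCoeff_EP (p := p))
  have h3 : del p - d⁄dX ℚ_[p] (logSum p K)
      = X ^ K * ((frobD p)⁻¹ * ((-((p : PowerSeries ℚ_[p]) * E1)) ^ K * d⁄dX ℚ_[p] (EP p))) := by
    rw [h1]
    have h4 : (-((p : PowerSeries ℚ_[p]) * EP p)) ^ K
        = X ^ K * (-((p : PowerSeries ℚ_[p]) * E1)) ^ K := by
      rw [hE1, ← mul_pow]
      congr 1
      ring
    rw [h4]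
    ring
  have h5 : coeff n (del p - d⁄dX ℚ_[p] (logSum p K)) = 0 := by
    rw [h3, coeff_X_pow_mul', if_neg (by omega)]
  rw [map_sub] at h5
  exact sub_eq_zero.1 h5

lemma two_mul_val_le (h3 : 3 ≤ p) (k : ℕ) : 2 * padicValNat p (k + 1) ≤ k := by
  have h1 : p ^ padicValNat p (k + 1) ∣ k + 1 := pow_padicValNat_dvd
  have h2 : p ^ padicValNat p (k + 1) ≤ k + 1 := Nat.le_of_dvd (Nat.succ_pos k) h1
  have h4 : ∀ v : ℕ, 2 * v + 1 ≤ 3 ^ v := by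
    intro v
    induction v with
    | zero => simp
    | succ v ih =>
      rw [pow_succ]
      omega
  have h5 := h4 (padicValNat p (k + 1))
  have h6 : 3 ^ padicValNat p (k + 1) ≤ p ^ padicValNat p (k + 1) := Nat.pow_le_pow_left h3 _
  omega

lemma log_term_le (h3 : 3 ≤ p) {r : ℝ} (hr : 1 ≤ r) (hrp : r ^ (2 * p) ≤ p) (k : ℕ) :
    ‖(-(p : ℚ_[p])) ^ k / ((k + 1 : ℕ) : ℚ_[p])‖ * (r ^ (p - 1)) ^ (k + 1) ≤ r ^ p := by
  have hp0 : (0 : ℝ) < p := by exact_mod_cast hp.out.pos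
  have hp1 : (1 : ℝ) ≤ p := by exact_mod_cast hp.out.one_le
  have hr0 : 0 < r := by linarith
  set v := padicValNat p (k + 1) with hv
  have h1 : ‖(((k + 1 : ℕ) : ℚ_[p]))‖ = ((p : ℝ) ^ v)⁻¹ := by
    rw [Padic.norm_eq_zpow_neg_valuation (by exact_mod_cast Nat.succ_ne_zero k),
      Padic.valuation_natCast, zpow_neg, zpow_natCast]
  have h2 : ‖(-(p : ℚ_[p])) ^ k / ((k + 1 : ℕ) : ℚ_[p])‖ = (p : ℝ) ^ v / (p : ℝ) ^ k := by
    rw [norm_div, norm_pow, norm_neg, norm_p, h1, inv_pow, div_inv_eq_mul]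
    ring
  have h4 : (p : ℝ) ^ v * r ^ (k * p) ≤ (p : ℝ) ^ k := by
    refine le_of_sq_le_sq ?_ (by positivity)
    calc ((p : ℝ) ^ v * r ^ (k * p)) ^ 2 = (p : ℝ) ^ (2 * v) * (r ^ (2 * p)) ^ k := by
          rw [mul_pow, ← pow_mul, ← pow_mul, ← pow_mul]
          congr 2 <;> ring
      _ ≤ (p : ℝ) ^ (2 * v) * (p : ℝ) ^ k := by gcongr
      _ = (p : ℝ) ^ (2 * v + k) := by rw [pow_add]
      _ ≤ (p : ℝ) ^ (2 * k) := by
          refine pow_le_pow_right₀ hp1 ?_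
          have := two_mul_val_le h3 k
          omega
      _ = ((p : ℝ) ^ k) ^ 2 := by rw [← pow_mul]; congr 1; ring
  have h5 : (r ^ (p - 1)) ^ (k + 1) ≤ r ^ (k * p) * r ^ p := by
    rw [← pow_mul, ← pow_add]
    refine pow_le_pow_right₀ hr ?_
    calc (p - 1) * (k + 1) ≤ p * (k + 1) := Nat.mul_le_mul_right _ (Nat.sub_le _ _)
      _ = k * p + p := by ring
  rw [h2]
  calc (p : ℝ) ^ v / (p : ℝ) ^ k * (r ^ (p - 1)) ^ (k + 1)
      ≤ (p : ℝ) ^ v / (p : ℝ) ^ k * (r ^ (k * p) * r ^ p) := by gcongr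
    _ = ((p : ℝ) ^ v * r ^ (k * p)) / (p : ℝ) ^ k * r ^ p := by ring
    _ ≤ 1 * r ^ p := by
        gcongr
        rw [div_le_one (by positivity)]
        exact h4
    _ = r ^ p := one_mul _

lemma bd_logSum (h3 : 3 ≤ p) {r : ℝ} (hr : 1 ≤ r) (hrp : r ^ (2 * p) ≤ p) (K : ℕ) :
    Bd (logSum p K) r (r ^ p) := by
  have hr0 : 0 ≤ r := by linarith
  unfold logSum
  refine Bd.sum _ _ hr0 (by positivity) fun k _ => ?_
  exact ((bd_C _).mul hr0 ((bd_EP' h3 hr).pow hr0 (k + 1))).mono hr0 le_rfl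
    (log_term_le h3 hr hrp k)

theorem stmt_LOG : Stmt_LOG := by
  intro p hp r h3 hr hrp
  refine ⟨integ (del p), ?_, ?_, ?_⟩
  · rw [← coeff_zero_eq_constantCoeff_apply, coeff_integ_zero]
  · rw [deriv_integ, mul_del]
  · intro n
    have hr0 : 0 ≤ r := by linarith
    rcases n with _ | n
    · rw [coeff_integ_zero, norm_zero, zero_mul]
      positivity
    · have h1 : coeff (n + 1) (integ (del p)) = coeff (n + 1) (logSum p (n + 1)) := by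
        rw [coeff_integ_succ, coeff_del_eq (Nat.lt_succ_self n), coeff_derivative]
        have : ((n + 1 : ℕ) : ℚ_[p]) ≠ 0 := by exact_mod_cast Nat.succ_ne_zero n
        field_simp
        push_cast
        ring
      rw [h1]
      exact bd_logSum h3 hr hrp (n + 1) (n + 1)

end Pool.Agent.Work.MP_03df5c_all
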