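import Pool.Agent.Work.MP_03df5c_all.Interface

open Finset PowerSeries

namespace Pool.Agent.Work.MP_03df5c_all

variable {p : ℕ} [Fact p.Prime]

/-- The coefficients of `f` satisfy `|c_n| r^n ≤ C`. -/
def Bd (f : PowerSeries ℚ_[p]) (r C : ℝ) : Prop := ∀ n, ‖coeff n f‖ * r ^ n ≤ C

lemma norm_sum_le_of {ι : Type*} (s : Finset ι) (f : ι → ℚ_[p]) {C : ℝ} (hC : 0 ≤ C)
    (h : ∀ i ∈ s, ‖f i‖ ≤ C) : ‖∑ i ∈ s, f i‖ ≤ C :=
  IsUltrametricDist.norm_sum_le_of_forall_le_of_nonneg hC h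

lemma Bd.nonneg {f : PowerSeries ℚ_[p]} {r C : ℝ} (h : Bd f r C) : 0 ≤ C := by
  have := h 0
  rw [pow_zero, mul_one] at this
  exact (norm_nonneg _).trans this

lemma Bd.mono {f : PowerSeries ℚ_[p]} {r r' C C' : ℝ} (h : Bd f r C) (h0 : 0 ≤ r') (hr : r' ≤ r)
    (hC : C ≤ C') : Bd f r' C' := fun n =>
  (mul_le_mul_of_nonneg_left (pow_le_pow_left₀ h0 hr n) (norm_nonneg _)).trans ((h n).trans hC)

lemma Bd.add {f g : PowerSeries ℚ_[p]} {r C : ℝ} (hr : 0 ≤ r) (hf : Bd f r C) (hg : Bd g r C) :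
    Bd (f + g) r C := by
  intro n
  rw [map_add]
  have h1 : ‖coeff n f + coeff n g‖ ≤ max ‖coeff n f‖ ‖coeff n g‖ :=
    IsUltrametricDist.norm_add_le_max _ _
  refine (mul_le_mul_of_nonneg_right h1 (pow_nonneg hr n)).trans ?_
  rw [max_mul_of_nonneg _ _ (pow_nonneg hr n)]
  exact max_le (hf n) (hg n)

lemma Bd.neg {f : PowerSeries ℚ_[p]} {r C : ℝ} (hf : Bd f r C) : Bd (-f) r C := by
  intro n
  rw [map_neg, norm_neg]
  exact hf n

lemma Bd.sub {f g : PowerSeries ℚ_[p]} {r C : ℝ} (hr : 0 ≤ r) (hf : Bd f r C) (hg : Bd g r C) :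
    Bd (f - g) r C := by
  rw [sub_eq_add_neg]
  exact hf.add hr hg.neg

lemma Bd.mul {f g : PowerSeries ℚ_[p]} {r C C' : ℝ} (hr : 0 ≤ r) (hf : Bd f r C)
    (hg : Bd g r C') : Bd (f * g) r (C * C') := by
  intro n
  have hC : 0 ≤ C := hf.nonneg
  have hC' : 0 ≤ C' := hg.nonneg
  rw [coeff_mul]
  rcases eq_or_lt_of_le hr with h0 | h0
  · rw [← h0]
    rcases Nat.eq_zero_or_pos n with h1 | h1
    · subst h1
      have h2 := hf 0
      have h3 := hg 0
      rw [pow_zero, mul_one] at h2 h3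
      rw [pow_zero, mul_one, Finset.Nat.antidiagonal_zero, Finset.sum_singleton, norm_mul]
      exact mul_le_mul h2 h3 (norm_nonneg _) hC
    · rw [zero_pow h1.ne', mul_zero]
      positivity
  · have h1 : ‖∑ x ∈ antidiagonal n, coeff x.1 f * coeff x.2 g‖ ≤ C * C' / r ^ n := by
      refine norm_sum_le_of _ _ (by positivity) ?_
      intro x hx
      rw [Finset.HasAntidiagonal.mem_antidiagonal] at hx
      rw [norm_mul, le_div_iff₀ (by positivity), ← hx, pow_add]
      calc ‖coeff x.1 f‖ * ‖coeff x.2 g‖ * (r ^ x.1 * r ^ x.2)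
          = (‖coeff x.1 f‖ * r ^ x.1) * (‖coeff x.2 g‖ * r ^ x.2) := by ring
        _ ≤ C * C' := mul_le_mul (hf _) (hg _) (by positivity) hC
    rwa [le_div_iff₀ (by positivity)] at h1

lemma bd_C (a : ℚ_[p]) {r : ℝ} : Bd (C a) r ‖a‖ := by
  intro n
  rw [coeff_C]
  split_ifs with h
  · simp [h]
  · simp

lemma bd_X {r : ℝ} (hr : 0 ≤ r) : Bd (X : PowerSeries ℚ_[p]) r r := by
  intro n
  rw [coeff_X]
  split_ifs with h
  · simp [h]
  · simpa using hr

lemma bd_one {r : ℝ} : Bd (1 : PowerSeries ℚ_[p]) r 1 := by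
  have := bd_C (p := p) (1 : ℚ_[p]) (r := r)
  simpa using this

lemma bd_zero {r C : ℝ} (hC : 0 ≤ C) : Bd (0 : PowerSeries ℚ_[p]) r C := by
  intro n
  simpa using hC

lemma overconvergent_iff {f : PowerSeries ℚ_[p]} :
    Overconvergent f ↔ ∃ r : ℝ, 1 < r ∧ ∃ C : ℝ, Bd f r C := Iff.rfl

lemma oc_C (a : ℚ_[p]) : Overconvergent (C a) := ⟨2, by norm_num, ‖a‖, bd_C a⟩

lemma oc_X : Overconvergent (X : PowerSeries ℚ_[p]) := ⟨2, by norm_num, 2, bd_X (by norm_num)⟩

lemma oc_add {f g : PowerSeries ℚ_[p]} (hf : Overconvergent f) (hg : Overconvergent g) :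
    Overconvergent (f + g) := by
  obtain ⟨r, hr, A, hA⟩ := hf
  obtain ⟨s, hs, B, hB⟩ := hg
  refine ⟨min r s, lt_min hr hs, max A B, ?_⟩
  have h0 : 0 ≤ min r s := (zero_le_one.trans (lt_min hr hs).le)
  exact Bd.add h0 (Bd.mono hA h0 (min_le_left _ _) (le_max_left _ _))
    (Bd.mono hB h0 (min_le_right _ _) (le_max_right _ _))

lemma oc_mul {f g : PowerSeries ℚ_[p]} (hf : Overconvergent f) (hg : Overconvergent g) :
    Overconvergent (f * g) := by
  obtain ⟨r, hr, A, hA⟩ := hf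
  obtain ⟨s, hs, B, hB⟩ := hg
  refine ⟨min r s, lt_min hr hs, A * B, ?_⟩
  have h0 : 0 ≤ min r s := (zero_le_one.trans (lt_min hr hs).le)
  exact Bd.mul h0 (Bd.mono hA h0 (min_le_left _ _) le_rfl)
    (Bd.mono hB h0 (min_le_right _ _) le_rfl)

lemma oc_neg {f : PowerSeries ℚ_[p]} (hf : Overconvergent f) : Overconvergent (-f) := by
  obtain ⟨r, hr, A, hA⟩ := hf
  exact ⟨r, hr, A, Bd.neg hA⟩

lemma oc_one : Overconvergent (1 : PowerSeries ℚ_[p]) := by
  have := oc_C (p := p) 1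
  simpa using this

lemma oc_sub {f g : PowerSeries ℚ_[p]} (hf : Overconvergent f) (hg : Overconvergent g) :
    Overconvergent (f - g) := by
  rw [sub_eq_add_neg]
  exact oc_add hf (oc_neg hg)

lemma oc_sum {ι : Type*} (s : Finset ι) (f : ι → PowerSeries ℚ_[p])
    (h : ∀ i ∈ s, Overconvergent (f i)) : Overconvergent (∑ i ∈ s, f i) := by
  classical
  induction s using Finset.induction_on with
  | empty =>
    have := oc_C (p := p) 0
    simpa using this
  | insert a s ha ih =>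
    rw [sum_insert ha]
    exact oc_add (h a (mem_insert_self _ _)) (ih fun i hi => h i (mem_insert_of_mem hi))

lemma summable_norm_of_oc {f : PowerSeries ℚ_[p]} (hf : Overconvergent f) :
    Summable (fun n => ‖coeff n f‖) := by
  obtain ⟨r, hr, A, hA⟩ := hf
  have h0 : 0 < r := zero_lt_one.trans hr
  have h1 : Summable fun n : ℕ => A * (r⁻¹) ^ n :=
    (summable_geometric_of_lt_one (by positivity) (inv_lt_one_of_one_lt₀ hr)).mul_left A
  refine Summable.of_nonneg_of_le (fun _ => norm_nonneg _) (fun n => ?_) h1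
  have h2 := hA n
  rw [inv_pow, ← div_eq_mul_inv, le_div_iff₀ (by positivity)]
  exact h2

lemma summable_of_oc {f : PowerSeries ℚ_[p]} (hf : Overconvergent f) :
    Summable (fun n => coeff n f) := (summable_norm_of_oc hf).of_norm

lemma valueOne_add {f g : PowerSeries ℚ_[p]} (hf : Overconvergent f) (hg : Overconvergent g) :
    valueOne (f + g) = valueOne f + valueOne g := by
  unfold valueOne
  rw [← (summable_of_oc hf).tsum_add (summable_of_oc hg)]
  simp

lemma valueOne_neg (f : PowerSeries ℚ_[p]) : valueOne (-f) = -valueOne f := by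
  unfold valueOne
  rw [← tsum_neg]
  simp

lemma valueOne_sub {f g : PowerSeries ℚ_[p]} (hf : Overconvergent f) (hg : Overconvergent g) :
    valueOne (f - g) = valueOne f - valueOne g := by
  rw [sub_eq_add_neg, valueOne_add hf (oc_neg hg), valueOne_neg, ← sub_eq_add_neg]

lemma valueOne_mul {f g : PowerSeries ℚ_[p]} (hf : Overconvergent f) (hg : Overconvergent g) :
    valueOne (f * g) = valueOne f * valueOne g := by
  unfold valueOne
  rw [tsum_mul_tsum_eq_tsum_sum_antidiagonal_of_summable_norm (summable_norm_of_oc hf)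
    (summable_norm_of_oc hg)]
  simp only [coeff_mul]

lemma valueOne_C (a : ℚ_[p]) : valueOne (C a) = a := by
  unfold valueOne
  rw [tsum_eq_single 0]
  · simp
  · intro n hn
    rw [coeff_C, if_neg hn]

lemma valueOne_one : valueOne (1 : PowerSeries ℚ_[p]) = 1 := by
  have := valueOne_C (p := p) 1
  simpa using this

lemma valueOne_zero : valueOne (0 : PowerSeries ℚ_[p]) = 0 := by
  have := valueOne_C (p := p) 0
  simpa using this

lemma valueOne_X : valueOne (X : PowerSeries ℚ_[p]) = 1 := by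
  unfold valueOne
  rw [tsum_eq_single 1]
  · simp
  · intro n hn
    rw [coeff_X, if_neg hn]

lemma valueOne_sum {ι : Type*} (s : Finset ι) (f : ι → PowerSeries ℚ_[p])
    (h : ∀ i ∈ s, Overconvergent (f i)) :
    valueOne (∑ i ∈ s, f i) = ∑ i ∈ s, valueOne (f i) := by
  classical
  induction s using Finset.induction_on with
  | empty => simpa using valueOne_zero
  | insert a s ha ih =>
    rw [sum_insert ha, sum_insert ha, valueOne_add (h a (mem_insert_self _ _))
      (oc_sum s f fun i hi => h i (mem_insert_of_mem hi)),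
      ih fun i hi => h i (mem_insert_of_mem hi)]

theorem stmt_OCA : Stmt_OCA := fun p _ =>
  ⟨oc_C, oc_X, fun _ _ hf hg => ⟨oc_add hf hg, oc_mul hf hg, oc_neg hf, summable_of_oc hf,
    valueOne_add hf hg, valueOne_mul hf hg, valueOne_neg _⟩, valueOne_C, valueOne_X⟩

/-! ### integration -/

/-- Formal integral. -/
noncomputable def integ (f : PowerSeries ℚ_[p]) : PowerSeries ℚ_[p] :=
  PowerSeries.mk fun n => if n = 0 then 0 else coeff (n - 1) f / (n : ℚ_[p])

lemma coeff_integ_zero (f : PowerSeries ℚ_[p]) : coeff 0 (integ f) = 0 := by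
  simp [integ]

lemma coeff_integ_succ (f : PowerSeries ℚ_[p]) (n : ℕ) :
    coeff (n + 1) (integ f) = coeff n f / ((n + 1 : ℕ) : ℚ_[p]) := by
  simp [integ]

lemma deriv_integ (f : PowerSeries ℚ_[p]) : d⁄dX ℚ_[p] (integ f) = f := by
  ext n
  rw [coeff_derivative, coeff_integ_succ]
  have : ((n + 1 : ℕ) : ℚ_[p]) ≠ 0 := by exact_mod_cast Nat.succ_ne_zero n
  field_simp
  push_cast
  ring

lemma eq_integ {f g : PowerSeries ℚ_[p]} (h0 : constantCoeff g = 0) (h : d⁄dX ℚ_[p] g = f) :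
    g = integ f := by
  ext n
  rcases n with _ | n
  · rw [coeff_integ_zero, coeff_zero_eq_constantCoeff_apply, h0]
  · rw [coeff_integ_succ, ← h, coeff_derivative]
    have : ((n + 1 : ℕ) : ℚ_[p]) ≠ 0 := by exact_mod_cast Nat.succ_ne_zero n
    field_simp
    push_cast
    ring

lemma norm_inv_natCast_le {n : ℕ} (hn : n ≠ 0) : ‖((n : ℚ_[p]))⁻¹‖ ≤ n := by
  rw [norm_inv]
  have hp : (1 : ℝ) < p := by exact_mod_cast (Fact.out : p.Prime).one_lt
  have h1 : ‖(n : ℚ_[p])‖ = (p : ℝ) ^ (-(padicValNat p n : ℤ)) := by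
    rw [Padic.norm_eq_zpow_neg_valuation (by exact_mod_cast hn), Padic.valuation_natCast]
  rw [h1, zpow_neg, inv_inv, zpow_natCast]
  have h2 : p ^ padicValNat p n ∣ n := pow_padicValNat_dvd
  exact_mod_cast Nat.le_of_dvd (Nat.pos_of_ne_zero hn) h2

lemma oc_integ {f : PowerSeries ℚ_[p]} (hf : Overconvergent f) : Overconvergent (integ f) := by
  obtain ⟨r, hr, A, hA⟩ := hf
  have h0 : 0 < r := zero_lt_one.trans hr
  have hA0 : 0 ≤ A := Bd.nonneg hA
  obtain ⟨t, ht1, htr⟩ := exists_between hr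
  have ht0 : 0 < t := zero_lt_one.trans ht1
  have hq0 : 0 ≤ t / r := by positivity
  have hq1 : t / r < 1 := (div_lt_one h0).2 htr
  obtain ⟨B, hB⟩ := (tendsto_self_mul_const_pow_of_lt_one hq0 hq1).bddAbove_range
  have hB' : ∀ n : ℕ, (n : ℝ) * (t / r) ^ n ≤ B := fun n => hB ⟨n, rfl⟩
  have hB0 : 0 ≤ B := by simpa using hB' 0
  refine ⟨t, ht1, A * r * B, ?_⟩
  intro n
  rcases n with _ | n
  · rw [coeff_integ_zero, norm_zero, zero_mul]
    positivity
  · rw [coeff_integ_succ, div_eq_mul_inv, norm_mul]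
    have h1 : ‖(((n + 1 : ℕ) : ℚ_[p]))⁻¹‖ ≤ ((n + 1 : ℕ) : ℝ) :=
      norm_inv_natCast_le (Nat.succ_ne_zero n)
    have h2 := hA n
    have h3 := hB' (n + 1)
    have h4 : t ^ (n + 1) = r ^ n * r * (t / r) ^ (n + 1) := by
      rw [div_pow, pow_succ r n]
      field_simp
    rw [h4]
    calc ‖coeff n f‖ * ‖(((n + 1 : ℕ) : ℚ_[p]))⁻¹‖ * (r ^ n * r * (t / r) ^ (n + 1))
        = (‖coeff n f‖ * r ^ n) * r * (‖(((n + 1 : ℕ) : ℚ_[p]))⁻¹‖ * (t / r) ^ (n + 1)) := by ring
      _ ≤ A * r * (((n + 1 : ℕ) : ℝ) * (t / r) ^ (n + 1)) := by gcongr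
      _ ≤ A * r * B := by gcongr

theorem stmt_OCI : Stmt_OCI := fun _ _ f hf =>
  ⟨integ f, oc_integ hf, by simp [← coeff_zero_eq_constantCoeff_apply, coeff_integ_zero],
    deriv_integ f⟩

/-! ### division by `X (1 - X)` -/

/-- The quotient of `f` by `X (1 - X)`. -/
noncomputable def divX (f : PowerSeries ℚ_[p]) : PowerSeries ℚ_[p] :=
  PowerSeries.mk fun n => ∑ j ∈ range (n + 1), coeff (j + 1) f

lemma coeff_divX (f : PowerSeries ℚ_[p]) (n : ℕ) :
    coeff n (divX f) = ∑ j ∈ range (n + 1), coeff (j + 1) f := by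
  simp [divX]

lemma mul_divX {f : PowerSeries ℚ_[p]} (h0 : constantCoeff f = 0) :
    X * (1 - X) * divX f = f := by
  have h1 : X * (1 - X) * divX f = X * (divX f - X * divX f) := by ring
  rw [h1]
  ext n
  rcases n with _ | n
  · rw [coeff_zero_X_mul, coeff_zero_eq_constantCoeff_apply, h0]
  · rw [coeff_succ_X_mul, map_sub, coeff_divX]
    rcases n with _ | n
    · simp
    · rw [coeff_succ_X_mul, coeff_divX, sum_range_succ _ (n + 1), add_sub_cancel_left]

lemma X_mul_ne_zero : (X * (1 - X) : PowerSeries ℚ_[p]) ≠ 0 := by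
  refine mul_ne_zero X_ne_zero ?_
  intro h
  have := congrArg constantCoeff h
  simp at this

lemma eq_divX {f g : PowerSeries ℚ_[p]} (h : X * (1 - X) * g = f) : g = divX f := by
  have h0 : constantCoeff f = 0 := by
    rw [← h]
    simp
  exact mul_left_cancel₀ X_mul_ne_zero (h.trans (mul_divX h0).symm)

lemma norm_tsum_le_of {a : ℕ → ℚ_[p]} {C : ℝ} (hC : 0 ≤ C) (h : ∀ n, ‖a n‖ ≤ C) :
    ‖∑' n, a n‖ ≤ C := by
  by_cases hs : Summable a
  · have h1 := hs.hasSum.tendsto_sum_nat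
    refine le_of_tendsto (h1.norm) (Filter.Eventually.of_forall fun n => ?_)
    exact norm_sum_le_of _ _ hC fun i _ => h i
  · rw [tsum_eq_zero_of_not_summable hs, norm_zero]
    exact hC

lemma bd_divX {f : PowerSeries ℚ_[p]} {r C : ℝ} (hr : 1 < r) (hf : Bd f r C)
    (h0 : constantCoeff f = 0) (h1 : valueOne f = 0) (n : ℕ) :
    ‖coeff n (divX f)‖ * r ^ (n + 2) ≤ C := by
  have hr0 : 0 < r := zero_lt_one.trans hr
  have hC : 0 ≤ C := hf.nonneg
  have hs : Summable (fun n => coeff n f) := summable_of_oc ⟨r, hr, C, hf⟩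
  have h2 := hs.sum_add_tsum_nat_add (n + 2)
  have h3 : ∑ i ∈ range (n + 2), coeff i f = coeff n (divX f) := by
    rw [sum_range_succ', coeff_divX, coeff_zero_eq_constantCoeff_apply, h0, add_zero]
  have h4 : ∑' n, coeff n f = 0 := h1
  rw [h3, h4] at h2
  have h5 : ‖∑' i, coeff (i + (n + 2)) f‖ ≤ C / r ^ (n + 2) := by
    refine norm_tsum_le_of (by positivity) fun i => ?_
    rw [le_div_iff₀ (by positivity)]
    refine le_trans ?_ (hf (i + (n + 2)))
    refine mul_le_mul_of_nonneg_left (pow_le_pow_right₀ hr.le (by omega)) (norm_nonneg _)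
  have h6 : coeff n (divX f) = -∑' i, coeff (i + (n + 2)) f := by
    linear_combination h2
  rw [h6, norm_neg]
  rwa [le_div_iff₀ (by positivity)] at h5

theorem stmt_OCDB : Stmt_OCDB := by
  intro p _ f g r C hr hf h1 h n
  have h0 : constantCoeff f = 0 := by
    rw [← h]
    simp
  rw [eq_divX h]
  exact bd_divX hr hf h0 h1 n

theorem stmt_OCD : Stmt_OCD := by
  intro p _ f hf h0 h1
  obtain ⟨r, hr, C, hC⟩ := hf
  refine ⟨divX f, ⟨r, hr, C, fun n => ?_⟩, mul_divX h0⟩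
  refine le_trans ?_ (bd_divX hr hC h0 h1 n)
  refine mul_le_mul_of_nonneg_left (pow_le_pow_right₀ hr.le (by omega)) (norm_nonneg _)

/-! ### integration with bounds -/

lemma pow_val_le {p : ℕ} (hp : p.Prime) (v : ℕ) (hv : 2 ≤ v) : (p ^ 2 - 1) * (v - 1) ≤ p ^ v := by
  obtain ⟨u, rfl⟩ : ∃ u, v = u + 2 := ⟨v - 2, by omega⟩
  have h1 : u + 1 ≤ p ^ u := by
    have := Nat.lt_pow_self (n := u) hp.one_lt
    omega
  have h2 : (p ^ 2 - 1) * (u + 2 - 1) ≤ p ^ 2 * p ^ u := by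
    have : u + 2 - 1 = u + 1 := by omega
    rw [this]
    exact Nat.mul_le_mul (Nat.sub_le _ _) h1
  calc (p ^ 2 - 1) * (u + 2 - 1) ≤ p ^ 2 * p ^ u := h2
    _ = p ^ (u + 2) := by ring

lemma norm_inv_mul_le {t : ℝ} (ht : 1 < t) (hpt : (p : ℝ) ≤ t ^ (p ^ 2 - 1)) {n : ℕ} (hn : n ≠ 0) :
    ‖((n : ℚ_[p]))⁻¹‖ ≤ p * t ^ n := by
  have hp : p.Prime := Fact.out
  have hp1 : (1 : ℝ) < p := by exact_mod_cast hp.one_lt
  have h1 : ‖(n : ℚ_[p])‖ = (p : ℝ) ^ (-(padicValNat p n : ℤ)) := by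
    rw [Padic.norm_eq_zpow_neg_valuation (by exact_mod_cast hn), Padic.valuation_natCast]
  rw [norm_inv, h1, zpow_neg, inv_inv, zpow_natCast]
  set v := padicValNat p n with hv
  have h2 : p ^ v ∣ n := pow_padicValNat_dvd
  have h3 : p ^ v ≤ n := Nat.le_of_dvd (Nat.pos_of_ne_zero hn) h2
  have ht0 : 1 ≤ t ^ n := one_le_pow₀ ht.le
  rcases Nat.lt_or_ge v 2 with h4 | h4
  · calc (p : ℝ) ^ v ≤ (p : ℝ) ^ 1 := pow_le_pow_right₀ hp1.le (by omega)
      _ = p * 1 := by ring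
      _ ≤ p * t ^ n := by gcongr
  · have h5 : (p : ℝ) ^ (v - 1) ≤ t ^ n := by
      calc (p : ℝ) ^ (v - 1) ≤ (t ^ (p ^ 2 - 1)) ^ (v - 1) :=
            pow_le_pow_left₀ (by positivity) hpt _
        _ = t ^ ((p ^ 2 - 1) * (v - 1)) := by rw [← pow_mul]
        _ ≤ t ^ n := pow_le_pow_right₀ ht.le ((pow_val_le hp v h4).trans h3)
    calc (p : ℝ) ^ v = p * (p : ℝ) ^ (v - 1) := by
          rw [← pow_succ']
          congr 1
          omega
      _ ≤ p * t ^ n := by gcongr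

theorem stmt_INTB : Stmt_INTB := by
  intro p _ f g r t C ht htr hpt hf h0 h n
  have hr0 : 0 < r := by linarith
  have ht0 : 0 < t := by linarith
  have hC : 0 ≤ C := Bd.nonneg hf
  rw [eq_integ h0 h]
  rcases n with _ | n
  · rw [coeff_integ_zero, norm_zero, zero_mul]
    positivity
  · rw [coeff_integ_succ, div_eq_mul_inv, norm_mul]
    have h1 := norm_inv_mul_le ht hpt (Nat.succ_ne_zero n) (p := p)
    have h2 := hf n
    have h3 : (r / t) ^ (n + 1) = r ^ n * r / t ^ (n + 1) := by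
      rw [div_pow, pow_succ r n]
    rw [h3]
    calc ‖coeff n f‖ * ‖(((n + 1 : ℕ) : ℚ_[p]))⁻¹‖ * (r ^ n * r / t ^ (n + 1))
        = (‖coeff n f‖ * r ^ n) * r * (‖(((n + 1 : ℕ) : ℚ_[p]))⁻¹‖ / t ^ (n + 1)) := by ring
      _ ≤ C * r * p := by
          gcongr
          rw [div_le_iff₀ (by positivity)]
          exact h1
      _ = p * r * C := by ring

end Pool.Agent.Work.MP_03df5c_all
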